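import Pool.Agent.Helper99.MR.Good

set_option autoImplicit false

/-!
# Project MR (MP_120218): chains of blocks, sums and products
-/

namespace Pool.Agent.Helper99.MR

open Finset Pool.Agent.Helper24.MD

/-- one dilate of the block `Y` for every set `X` -/
def Stp (q : ℕ) (δ C : ℝ) (Y : Finset ℕ) (ρ : ℝ) : Prop :=
  ∀ X : Finset ℤ, X.Nonempty → ∃ g : ℕ, 1 ≤ g ∧ g ≤ q ∧
    Real.log (X.card : ℝ) + Real.log (Y.card : ℝ) - ρ - δ * Real.log (X.card : ℝ) -
      2 * δ * Real.log (Y.card : ℝ) - C ≤ Real.log ((sm g X Y).card : ℝ)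

theorem stp_of_good {q : ℕ} {δ C ρ : ℝ} {Y : Finset ℕ} (h : Good q δ C Y ρ) :
    Stp q δ (2 * C) Y ρ := by
  intro X hX
  obtain ⟨S, hS, hSne, h1, h2⟩ := h Y subset_rfl (by omega)
  obtain ⟨g, hg1, hg2, h3⟩ := h2 X hX
  refine ⟨g, hg1, hg2, ?_⟩
  have h4 : Real.log ((sm g X S).card : ℝ) ≤ Real.log ((sm g X Y).card : ℝ) := by
    have h5 : (sm g X S).Nonempty := hX.image₂ hSne
    have h6 : sm g X S ⊆ sm g X Y := by
      unfold sm
      exact image₂_subset_left hS
    apply Real.log_le_log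
    · exact_mod_cast card_pos.2 h5
    · exact_mod_cast card_le_card h6
  linarith

theorem block_ex (δ : ℝ) (hδ : 0 < δ) (hδ1 : δ ≤ 1 / 2) :
    ∃ q : ℕ, ∃ C : ℝ, 0 ≤ C ∧ 1 ≤ q ∧ ∀ Y : Finset ℕ, Y.Nonempty → (∀ y ∈ Y, 0 < y) →
      ∃ ρ : ℝ, 0 ≤ ρ ∧ ρ ≤ Real.log (Y.card : ℝ) ∧ Pr δ Y ρ ∧ Stp q δ C Y ρ := by
  obtain ⟨q, C, hC, hq, h⟩ := good_ex δ hδ hδ1
  refine ⟨q, 2 * C, by positivity, hq, ?_⟩
  intro Y hY hpos
  obtain ⟨ρ, h1, h2, h3, h4⟩ := h Y hY hpos
  exact ⟨ρ, h1, h2, h3, stp_of_good h4⟩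

/-- sums over a chain of blocks -/
def csum {k : ℕ} (g : Fin k → ℕ) (Y : Fin k → Finset ℕ) : Finset ℤ :=
  (Fintype.piFinset Y).image (fun f : Fin k → ℕ => ∑ i, ((g i : ℕ) : ℤ) * ((f i : ℕ) : ℤ))

/-- products over a chain of blocks -/
def cprod {k : ℕ} (Y : Fin k → Finset ℕ) : Finset ℕ :=
  (Fintype.piFinset Y).image (fun f : Fin k → ℕ => ∏ i, f i)

theorem chain (q : ℕ) (δ C L : ℝ) (hδ : 0 ≤ δ) (hL : 0 ≤ L) (k : ℕ) :
    ∀ (Y : Fin (k + 1) → Finset ℕ) (ρ : Fin (k + 1) → ℝ), (∀ i, (Y i).Nonempty) →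
    (∀ i, Real.log ((Y i).card : ℝ) = L) → (∀ i, Stp q δ C (Y i) (ρ i)) → 1 ≤ q →
    ∃ g : Fin (k + 1) → ℕ, (∀ i, 1 ≤ g i ∧ g i ≤ q) ∧ (csum g Y).Nonempty ∧
      Real.log ((csum g Y).card : ℝ) ≤ ((k : ℝ) + 1) * L ∧
      ((k : ℝ) + 1) * L - ∑ i : Fin k, ρ i.succ - k * (((k : ℝ) + 3) * δ * L + C) ≤
        Real.log ((csum g Y).card : ℝ) := by
  classical
  have hnonneg : ∀ x : ℝ, 0 ≤ x → 0 ≤ δ * x := fun x hx => mul_nonneg hδ hx
  induction k with
  | zero =>
    intro Y ρ hY hYL _ hq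
    refine ⟨fun _ => 1, fun _ => ⟨le_rfl, hq⟩, ?_, ?_, ?_⟩
    · exact (Fintype.piFinset_nonempty.2 hY).image _
    all_goals
      have hcard : (csum (fun _ : Fin (0 + 1) => 1) Y).card = (Y 0).card := by
        unfold csum
        apply le_antisymm
        · refine le_trans card_image_le ?_
          rw [Fintype.card_piFinset]
          simp
        · refine card_le_card_of_injOn (fun y : ℕ => (y : ℤ)) ?_ ?_
          · intro y hy
            rw [mem_coe]
            refine mem_image.2 ⟨fun _ => y, ?_, ?_⟩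
            · rw [Fintype.mem_piFinset]
              intro i
              have : i = 0 := Fin.ext (by omega)
              rw [this]
              exact hy
            · simp
          · intro a _ b _ hab
            have hab' : (a : ℤ) = (b : ℤ) := hab
            exact_mod_cast hab'
      rw [hcard, hYL 0]
      simp
  | succ k ih =>
    intro Y ρ hY hYL hS hq
    obtain ⟨g, hg, hne, hu, hl⟩ := ih (fun i => Y i.castSucc) (fun i => ρ i.castSucc)
      (fun i => hY _) (fun i => hYL _) (fun i => hS _) hq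
    obtain ⟨g0, hg01, hg02, hg0⟩ := hS (Fin.last (k + 1)) _ hne
    rw [hYL] at hg0
    have hsub : sm g0 (csum g (fun i => Y i.castSucc)) (Y (Fin.last (k + 1))) ⊆
        csum (Fin.snoc g g0 : Fin (k + 1 + 1) → ℕ) Y := by
      intro z hz
      unfold sm at hz
      obtain ⟨x, hx, y, hy, rfl⟩ := mem_image₂.1 hz
      unfold csum at hx
      obtain ⟨f, hf, rfl⟩ := mem_image.1 hx
      unfold csum
      refine mem_image.2 ⟨Fin.snoc f y, ?_, ?_⟩
      · rw [Fintype.mem_piFinset] at hf ⊢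
        intro i
        refine Fin.lastCases ?_ (fun j => ?_) i
        · rw [Fin.snoc_last]; exact hy
        · rw [Fin.snoc_castSucc]; exact hf j
      · rw [Fin.sum_univ_castSucc]
        simp only [Fin.snoc_castSucc, Fin.snoc_last]
    have hne2 : (sm g0 (csum g (fun i => Y i.castSucc)) (Y (Fin.last (k + 1)))).Nonempty :=
      hne.image₂ (hY _)
    have hcs : (csum (Fin.snoc g g0 : Fin (k + 1 + 1) → ℕ) Y).Nonempty := hne2.mono hsub
    refine ⟨Fin.snoc g g0, ?_, hcs, ?_, ?_⟩
    · intro i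
      refine Fin.lastCases ?_ (fun j => ?_) i
      · rw [Fin.snoc_last]; exact ⟨hg01, hg02⟩
      · rw [Fin.snoc_castSucc]; exact hg j
    · have h1 : (csum (Fin.snoc g g0 : Fin (k + 1 + 1) → ℕ) Y).card ≤ ∏ i, (Y i).card := by
        unfold csum
        refine le_trans card_image_le ?_
        rw [Fintype.card_piFinset]
      have h2 : Real.log ((csum (Fin.snoc g g0 : Fin (k + 1 + 1) → ℕ) Y).card : ℝ) ≤
          Real.log ((∏ i, (Y i).card : ℕ) : ℝ) := by
        apply Real.log_le_log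
        · exact_mod_cast card_pos.2 hcs
        · exact_mod_cast h1
      have h3 : Real.log ((∏ i, (Y i).card : ℕ) : ℝ) = ∑ i, Real.log ((Y i).card : ℝ) := by
        push_cast
        rw [Real.log_prod]
        intro i _
        have := card_pos.2 (hY i)
        positivity
      rw [h3, sum_congr rfl fun i _ => hYL i] at h2
      simp only [sum_const, card_univ, Fintype.card_fin, nsmul_eq_mul] at h2
      push_cast at h2 ⊢
      exact h2
    · have h4 : Real.log ((sm g0 (csum g (fun i => Y i.castSucc))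
          (Y (Fin.last (k + 1)))).card : ℝ) ≤
          Real.log ((csum (Fin.snoc g g0 : Fin (k + 1 + 1) → ℕ) Y).card : ℝ) := by
        apply Real.log_le_log
        · exact_mod_cast card_pos.2 hne2
        · exact_mod_cast card_le_card hsub
      refine le_trans ?_ h4
      refine le_trans ?_ hg0
      rw [Fin.sum_univ_castSucc]
      simp only [Fin.succ_last, Fin.succ_castSucc] at hl ⊢
      have h5 : δ * Real.log ((csum g (fun i => Y i.castSucc)).card : ℝ) ≤
          δ * (((k : ℝ) + 1) * L) := mul_le_mul_of_nonneg_left hu hδ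
      have h6 : 0 ≤ k * (δ * L) := mul_nonneg (Nat.cast_nonneg _) (mul_nonneg hδ hL)
      push_cast
      nlinarith

/-- products over a chain of blocks -/
theorem chain_prod (δ : ℝ) (hδ : 0 ≤ δ) (hδ1 : δ ≤ 1) (k : ℕ) :
    ∀ (Y : Fin (k + 1) → Finset ℕ) (ρ : Fin (k + 1) → ℝ), (∀ i, (Y i).Nonempty) →
    (∀ i, ∀ y ∈ Y i, 0 < y) → (∀ i, 0 ≤ ρ i) → (∀ i, Pr δ (Y i) (ρ i)) →
    (cprod Y).Nonempty ∧ (∀ y ∈ cprod Y, 0 < y) ∧
      (1 - ((k : ℝ) + 1) * δ) * (Real.log ((Y 0).card : ℝ) + ∑ i : Fin k, ρ i.succ) ≤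
        Real.log ((cprod Y).card : ℝ) := by
  classical
  induction k with
  | zero =>
    intro Y ρ hY hpos hρ hP
    refine ⟨(Fintype.piFinset_nonempty.2 hY).image _, ?_, ?_⟩
    · intro y hy
      unfold cprod at hy
      obtain ⟨f, hf, rfl⟩ := mem_image.1 hy
      rw [Fintype.mem_piFinset] at hf
      exact prod_pos fun i _ => hpos i _ (hf i)
    · have hcard : (Y 0).card ≤ (cprod Y).card := by
        unfold cprod
        refine card_le_card_of_injOn (fun y : ℕ => y) ?_ ?_
        · intro y hy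
          rw [mem_coe]
          refine mem_image.2 ⟨fun _ => y, ?_, ?_⟩
          · rw [Fintype.mem_piFinset]
            intro i
            have : i = 0 := Fin.ext (by omega)
            rw [this]
            exact hy
          · simp
        · intro a _ b _ hab
          exact hab
      have h1 : Real.log ((Y 0).card : ℝ) ≤ Real.log ((cprod Y).card : ℝ) := by
        apply Real.log_le_log
        · exact_mod_cast card_pos.2 (hY 0)
        · exact_mod_cast hcard
      have h2 : 0 ≤ Real.log ((Y 0).card : ℝ) := Real.log_natCast_nonneg _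
      have h3 : (1 - (((0 : ℕ) : ℝ) + 1) * δ) * (Real.log ((Y 0).card : ℝ) +
          ∑ i : Fin 0, ρ i.succ) = (1 - δ) * Real.log ((Y 0).card : ℝ) := by
        simp
      rw [h3]
      nlinarith
  | succ k ih =>
    intro Y ρ hY hpos hρ hP
    obtain ⟨hne, hcpos, hl⟩ := ih (fun i => Y i.castSucc) (fun i => ρ i.castSucc)
      (fun i => hY _) (fun i => hpos _) (fun i => hρ _) (fun i => hP _)
    have hsub : image₂ (fun x y : ℕ => x * y) (cprod (fun i => Y i.castSucc))
        (Y (Fin.last (k + 1))) ⊆ cprod Y := by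
      intro z hz
      obtain ⟨x, hx, y, hy, rfl⟩ := mem_image₂.1 hz
      unfold cprod at hx
      obtain ⟨f, hf, rfl⟩ := mem_image.1 hx
      unfold cprod
      refine mem_image.2 ⟨Fin.snoc f y, ?_, ?_⟩
      · rw [Fintype.mem_piFinset] at hf ⊢
        intro i
        refine Fin.lastCases ?_ (fun j => ?_) i
        · rw [Fin.snoc_last]; exact hy
        · rw [Fin.snoc_castSucc]; exact hf j
      · rw [Fin.prod_univ_castSucc]
        simp only [Fin.snoc_castSucc, Fin.snoc_last]
    have hne2 : (image₂ (fun x y : ℕ => x * y) (cprod (fun i => Y i.castSucc))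
        (Y (Fin.last (k + 1)))).Nonempty := hne.image₂ (hY _)
    refine ⟨hne2.mono hsub, ?_, ?_⟩
    · intro y hy
      unfold cprod at hy
      obtain ⟨f, hf, rfl⟩ := mem_image.1 hy
      rw [Fintype.mem_piFinset] at hf
      exact prod_pos fun i _ => hpos i _ (hf i)
    · have h4 : Real.log ((image₂ (fun x y : ℕ => x * y) (cprod (fun i => Y i.castSucc))
          (Y (Fin.last (k + 1)))).card : ℝ) ≤ Real.log ((cprod Y).card : ℝ) := by
        apply Real.log_le_log
        · exact_mod_cast card_pos.2 hne2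
        · exact_mod_cast card_le_card hsub
      refine le_trans ?_ h4
      refine le_trans ?_ (hP (Fin.last (k + 1)) _ hne hcpos)
      rw [Fin.sum_univ_castSucc]
      simp only [Fin.succ_last, Fin.succ_castSucc, Fin.castSucc_zero] at hl ⊢
      have h5 := hρ (Fin.last (k + 1))
      have h6 : 0 ≤ ∑ i : Fin k, ρ i.succ.castSucc := sum_nonneg fun i _ => hρ _
      have h7 : 0 ≤ Real.log ((Y 0).card : ℝ) := Real.log_natCast_nonneg _
      have hk : (0 : ℝ) ≤ k := Nat.cast_nonneg _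
      generalize ∑ i : Fin k, ρ i.succ.castSucc = s at *
      generalize ρ (Fin.last (k + 1)) = r at *
      generalize Real.log ((Y 0).card : ℝ) = l at *
      have h8 : (1 - δ) * ((1 - ((k : ℝ) + 1) * δ) * (l + s) + r) ≤
          (1 - δ) * (Real.log ((cprod (fun i => Y i.castSucc)).card : ℝ) + r) :=
        mul_le_mul_of_nonneg_left (by linarith) (by linarith)
      refine le_trans ?_ h8
      push_cast
      have e : (1 - δ) * ((1 - ((k : ℝ) + 1) * δ) * (l + s) + r) -
          (1 - ((k : ℝ) + 1 + 1) * δ) * (l + (s + r)) =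
          ((k : ℝ) + 1) * δ ^ 2 * (l + s) + ((k : ℝ) + 1) * δ * r := by ring
      have e2 : 0 ≤ ((k : ℝ) + 1) * δ ^ 2 * (l + s) + ((k : ℝ) + 1) * δ * r := by positivity
      linarith

/-- from the products of the blocks to the products of a set containing dilates of all elements -/
theorem prod_transfer (k q : ℕ) (hq : 1 ≤ q) (Y : Fin k → Finset ℕ) (hY : ∀ i, (Y i).Nonempty)
    (A : Finset ℤ) (σ : ℤ) (hσ : σ = 1 ∨ σ = -1)
    (hA : ∀ i, ∀ y ∈ Y i, ∃ g : ℕ, 1 ≤ g ∧ g ≤ q ∧ σ * ((g : ℤ) * (y : ℤ)) ∈ A) :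
    Real.log ((cprod Y).card : ℝ) - k * Real.log (q : ℝ) ≤
      Real.log ((((Fintype.piFinset (fun _ : Fin k => A)).image
        (fun f : Fin k → ℤ => ∏ i, f i)).card : ℕ) : ℝ) := by
  classical
  obtain ⟨P, hP⟩ : ∃ P : Finset ℤ, P = (Fintype.piFinset (fun _ : Fin k => A)).image
        (fun f : Fin k → ℤ => ∏ i, f i) := ⟨_, rfl⟩
  rw [← hP]
  have hne : (cprod Y).Nonempty := (Fintype.piFinset_nonempty.2 hY).image _
  -- every product of the blocks is a quotient
  have h1 : ∀ z ∈ cprod Y, ∃ u : ℕ × ℤ, (u.1 ∈ Finset.Icc 1 (q ^ k) ∧ u.2 ∈ P) ∧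
      σ ^ k * ((u.1 : ℤ) * (z : ℤ)) = u.2 := by
    intro z hz
    unfold cprod at hz
    obtain ⟨f, hf, rfl⟩ := mem_image.1 hz
    rw [Fintype.mem_piFinset] at hf
    choose g hg using fun i => hA i (f i) (hf i)
    refine ⟨(∏ i, g i, ∏ i, σ * ((g i : ℤ) * ((f i : ℕ) : ℤ))), ⟨?_, ?_⟩, ?_⟩
    · rw [Finset.mem_Icc]
      constructor
      · have hgp : ∀ i, 0 < g i := fun i => lt_of_lt_of_le one_pos (hg i).1
        show 1 ≤ ∏ i, g i
        exact Nat.succ_le_of_lt (Finset.prod_pos fun i _ => hgp i)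
      · show ∏ i, g i ≤ q ^ k
        calc ∏ i, g i ≤ ∏ _i : Fin k, q := Finset.prod_le_prod' fun i _ => (hg i).2.1
          _ = q ^ k := by simp
    · rw [hP]
      refine mem_image.2 ⟨fun i => σ * ((g i : ℤ) * ((f i : ℕ) : ℤ)), ?_, rfl⟩
      rw [Fintype.mem_piFinset]
      exact fun i => (hg i).2.2
    · simp only
      rw [Finset.prod_mul_distrib, Finset.prod_mul_distrib, Finset.prod_const, card_univ,
        Fintype.card_fin]
      push_cast
      ring
  choose! u hu1 hu2 using h1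
  have h2 : (cprod Y).card ≤ ((Finset.Icc 1 (q ^ k)) ×ˢ P).card := by
    refine card_le_card_of_injOn u ?_ ?_
    · intro z hz
      rw [mem_coe, mem_product]
      exact hu1 z hz
    · intro z hz z' hz' hzz
      have h3 := hu2 z hz
      have h4 := hu2 z' hz'
      rw [hzz] at h3
      have h5 : σ ^ k * (((u z').1 : ℤ) * (z : ℤ)) = σ ^ k * (((u z').1 : ℤ) * (z' : ℤ)) :=
        h3.trans h4.symm
      have hσ0 : σ ^ k ≠ 0 := pow_ne_zero _ (by rcases hσ with rfl | rfl <;> norm_num)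
      have h6 := mul_left_cancel₀ hσ0 h5
      have h7 : (((u z').1 : ℕ) : ℤ) ≠ 0 := by
        have := (Finset.mem_Icc.1 (hu1 z' hz').1).1
        exact_mod_cast (by omega : (u z').1 ≠ 0)
      exact_mod_cast mul_left_cancel₀ h7 h6
  rw [card_product, Nat.card_Icc, Nat.add_sub_cancel] at h2
  have hPpos : 0 < P.card := by
    rcases Nat.eq_zero_or_pos P.card with h | h
    · rw [h, mul_zero] at h2
      have := card_pos.2 hne
      omega
    · exact h
  have hP0 : (0 : ℝ) < P.card := by exact_mod_cast hPpos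
  have hq0 : (0 : ℝ) < q := by exact_mod_cast hq
  have h8 : Real.log ((cprod Y).card : ℝ) ≤ Real.log ((q : ℝ) ^ k * P.card) := by
    apply Real.log_le_log
    · exact_mod_cast card_pos.2 hne
    · exact_mod_cast h2
  rw [Real.log_mul (by positivity) hP0.ne', Real.log_pow] at h8
  linarith

/-- from the sums of the blocks to the sums of a set containing the chosen dilates -/
theorem sum_transfer (k : ℕ) (Y : Fin k → Finset ℕ) (hY : ∀ i, (Y i).Nonempty) (g : Fin k → ℕ)
    (A : Finset ℤ) (σ : ℤ) (hσ : σ = 1 ∨ σ = -1)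
    (hA : ∀ i, ∀ y ∈ Y i, σ * ((g i : ℤ) * (y : ℤ)) ∈ A) :
    Real.log ((csum g Y).card : ℝ) ≤
      Real.log ((((Fintype.piFinset (fun _ : Fin k => A)).image
        (fun f : Fin k → ℤ => ∑ i, f i)).card : ℕ) : ℝ) := by
  classical
  apply Real.log_le_log
  · have : (csum g Y).Nonempty := (Fintype.piFinset_nonempty.2 hY).image _
    exact_mod_cast card_pos.2 this
  · apply Nat.cast_le.2
    refine card_le_card_of_injOn (fun z => σ * z) ?_ ?_
    · intro z hz
      rw [mem_coe] at hz ⊢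
      unfold csum at hz
      obtain ⟨f, hf, rfl⟩ := mem_image.1 hz
      rw [Fintype.mem_piFinset] at hf
      refine mem_image.2 ⟨fun i => σ * ((g i : ℤ) * ((f i : ℕ) : ℤ)), ?_, ?_⟩
      · rw [Fintype.mem_piFinset]
        exact fun i => hA i _ (hf i)
      · rw [← Finset.mul_sum]
    · intro a _ b _ hab
      exact mul_left_cancel₀ (by rcases hσ with rfl | rfl <;> norm_num) hab

end Pool.Agent.Helper99.MR
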