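import Pool.Agent.Helper99.MR.Chain

set_option autoImplicit false

/-!
# Project MR (MP_120218): one assignment of dilates for every set
-/

namespace Pool.Agent.Helper99.MR

open Finset Pool.Agent.Helper24.MD

/-- `K` disjoint blocks of `n` elements -/
theorem blocks_ex (K n : ℕ) (S : Finset ℕ) (h : K * n ≤ S.card) :
    ∃ Y : Fin K → Finset ℕ, (∀ i, Y i ⊆ S) ∧ (∀ i, (Y i).card = n) ∧
      ∀ i j, i ≠ j → Disjoint (Y i) (Y j) := by
  classical
  have hc : Fintype.card (Fin K × Fin n) ≤ Fintype.card {a // a ∈ S} := by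
    rw [Fintype.card_prod, Fintype.card_fin, Fintype.card_fin, Fintype.card_coe]
    exact h
  obtain ⟨g⟩ := Function.Embedding.nonempty_of_card_le hc
  refine ⟨fun i => univ.image (fun j => (g (i, j) : ℕ)), ?_, ?_, ?_⟩
  · intro i y hy
    obtain ⟨j, -, rfl⟩ := mem_image.1 hy
    exact (g (i, j)).2
  · intro i
    rw [card_image_of_injective, card_univ, Fintype.card_fin]
    intro j j' hj
    have := g.injective (Subtype.ext hj)
    exact congrArg Prod.snd this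
  · intro i j hij
    rw [Finset.disjoint_left]
    intro y hy hy'
    obtain ⟨a, -, rfl⟩ := mem_image.1 hy
    obtain ⟨b, -, hb⟩ := mem_image.1 hy'
    have := g.injective (Subtype.ext hb)
    exact hij (congrArg Prod.fst this).symm

/-- an assignment of dilates from the dilates of the blocks -/
theorem assign (K q : ℕ) (hq : 1 ≤ q) (Y : Fin K → Finset ℕ)
    (hY : ∀ i j, i ≠ j → Disjoint (Y i) (Y j)) (g : Fin K → ℕ) (hg : ∀ i, 1 ≤ g i ∧ g i ≤ q) :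
    ∃ gm : ℕ → ℕ, (∀ y, 1 ≤ gm y ∧ gm y ≤ q) ∧ ∀ i, ∀ y ∈ Y i, gm y = g i := by
  classical
  refine ⟨fun y => if h : ∃ i, y ∈ Y i then g h.choose else 1, ?_, ?_⟩
  · intro y
    by_cases h : ∃ i, y ∈ Y i
    · simp only [dif_pos h]
      exact hg _
    · simp only [dif_neg h]
      exact ⟨le_rfl, hq⟩
  · intro i y hy
    have h : ∃ i, y ∈ Y i := ⟨i, hy⟩
    simp only [dif_pos h]
    by_contra hne
    have h1 : h.choose ≠ i := by
      intro h2
      rw [h2] at hne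
      exact hne rfl
    exact (Finset.disjoint_left.1 (hY _ _ h1)) h.choose_spec hy

/-- the size of the blocks -/
theorem block_log (k : ℕ) (S : Finset ℕ) (hS : k + 1 ≤ S.card) :
    ∃ n : ℕ, 1 ≤ n ∧ (k + 1) * n ≤ S.card ∧
      Real.log (S.card : ℝ) ≤ Real.log (2 * ((k : ℝ) + 1)) + Real.log (n : ℝ) := by
  refine ⟨S.card / (k + 1), ?_, ?_, ?_⟩
  · exact (Nat.le_div_iff_mul_le (Nat.succ_pos k)).2 (by omega)
  · exact Nat.mul_div_le _ _
  · have hn : 1 ≤ S.card / (k + 1) := (Nat.le_div_iff_mul_le (Nat.succ_pos k)).2 (by omega)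
    have h1 : S.card < (S.card / (k + 1) + 1) * (k + 1) :=
      (Nat.div_lt_iff_lt_mul (Nat.succ_pos k)).1 (Nat.lt_succ_self _)
    have h2 : S.card ≤ 2 * (k + 1) * (S.card / (k + 1)) := by nlinarith
    have hn0 : (0 : ℝ) < ((S.card / (k + 1) : ℕ) : ℝ) := by exact_mod_cast hn
    rw [← Real.log_mul (by positivity) hn0.ne']
    apply Real.log_le_log
    · have : 0 < S.card := by omega
      exact_mod_cast this
    · exact_mod_cast h2

/-- **(1)** for sets of positive integers -/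
theorem det1 (k : ℕ) (ε : ℝ) (hε : 0 < ε) : ∃ q : ℕ, 1 ≤ q ∧ ∃ C : ℝ, 0 ≤ C ∧
    ∀ S : Finset ℕ, k + 1 ≤ S.card → (∀ y ∈ S, 0 < y) →
      ∃ gm : ℕ → ℕ, (∀ y, 1 ≤ gm y ∧ gm y ≤ q) ∧
      ∀ (A : Finset ℤ) (σ : ℤ), (σ = 1 ∨ σ = -1) →
        (∀ y ∈ S, σ * ((gm y : ℤ) * (y : ℤ)) ∈ A) →
        ((k : ℝ) + 2 - ε) * Real.log (S.card : ℝ) - C ≤
          Real.log ((((Fintype.piFinset (fun _ : Fin (k + 1) => A)).image
            (fun f : Fin (k + 1) → ℤ => ∑ i, f i)).card : ℕ) : ℝ) +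
          Real.log ((((Fintype.piFinset (fun _ : Fin (k + 1) => A)).image
            (fun f : Fin (k + 1) → ℤ => ∏ i, f i)).card : ℕ) : ℝ) := by
  classical
  obtain ⟨e, he⟩ : ∃ e : ℝ, e = min ε 1 := ⟨_, rfl⟩
  have he0 : 0 < e := by rw [he]; exact lt_min hε one_pos
  have he1 : e ≤ 1 := by rw [he]; exact min_le_right _ _
  have hee : e ≤ ε := by rw [he]; exact min_le_left _ _
  obtain ⟨κ, hκd⟩ : ∃ κ : ℝ, κ = (k : ℝ) := ⟨_, rfl⟩
  have hκ0 : 0 ≤ κ := by rw [hκd]; exact Nat.cast_nonneg _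
  obtain ⟨δ, hδd, hδ0, hδ1⟩ : ∃ δ : ℝ, δ * (4 * (κ + 2) ^ 2) = e ∧ 0 < δ ∧ δ ≤ 1 / 2 := by
    refine ⟨e / (4 * (κ + 2) ^ 2), by field_simp, by positivity, ?_⟩
    rw [div_le_iff₀ (by positivity)]
    nlinarith
  obtain ⟨q, C, hC, hq, hblock⟩ := block_ex δ hδ0 hδ1
  have hq0 : (0 : ℝ) < q := by exact_mod_cast hq
  have hlq : 0 ≤ Real.log (q : ℝ) := Real.log_natCast_nonneg _
  have hl2k : 0 ≤ Real.log (2 * (κ + 1)) := Real.log_nonneg (by linarith)
  refine ⟨q, hq, (κ + 2) * Real.log (2 * (κ + 1)) + κ * C + (κ + 1) * Real.log (q : ℝ),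
    by positivity, ?_⟩
  intro S hS hpos
  obtain ⟨n, hn1, hn2, hnlog⟩ := block_log k S hS
  obtain ⟨Y, hYS, hYc, hYd⟩ := blocks_ex (k + 1) n S hn2
  have hYne : ∀ i, (Y i).Nonempty := fun i => card_pos.1 (by rw [hYc i]; omega)
  have hYpos : ∀ i, ∀ y ∈ Y i, 0 < y := fun i y hy => hpos y (hYS i hy)
  choose ρ hρ0 hρ1 hρP hρS using fun i => hblock (Y i) (hYne i) (hYpos i)
  have hL : 0 ≤ Real.log (n : ℝ) := Real.log_natCast_nonneg _
  obtain ⟨g, hg, -, -, hsum⟩ := chain q δ C (Real.log (n : ℝ)) hδ0.le hL k Y ρ hYne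
    (fun i => by rw [hYc i]) hρS hq
  obtain ⟨-, -, hprod⟩ := chain_prod δ hδ0.le (by linarith) k Y ρ hYne hYpos hρ0 hρP
  obtain ⟨gm, hgm1, hgm2⟩ := assign (k + 1) q hq Y hYd g hg
  refine ⟨gm, hgm1, ?_⟩
  intro A σ hσ hA
  have h1 := sum_transfer (k + 1) Y hYne g A σ hσ (fun i y hy => by
    have := hA y (hYS i hy)
    rwa [hgm2 i y hy] at this)
  have h2 := prod_transfer (k + 1) q hq Y hYne A σ hσ (fun i y hy =>
    ⟨gm y, (hgm1 y).1, (hgm1 y).2, hA y (hYS i hy)⟩)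
  rw [hYc 0] at hprod
  have hρsum : ∑ i : Fin k, ρ i.succ ≤ κ * Real.log (n : ℝ) := by
    have h3 : ∑ i : Fin k, ρ i.succ ≤ ∑ _i : Fin k, Real.log (n : ℝ) := by
      refine sum_le_sum fun i _ => ?_
      have := hρ1 i.succ
      rwa [hYc] at this
    rw [sum_const, card_univ, Fintype.card_fin, nsmul_eq_mul, ← hκd] at h3
    exact h3
  have hρsum0 : 0 ≤ ∑ i : Fin k, ρ i.succ := sum_nonneg fun i _ => hρ0 _
  rw [← hκd] at hsum hprod hnlog ⊢
  push_cast at h2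
  rw [← hκd] at h2
  generalize ∑ i : Fin k, ρ i.succ = s at *
  generalize Real.log (n : ℝ) = L at *
  generalize Real.log (q : ℝ) = lq at *
  generalize Real.log (2 * (κ + 1)) = l2 at *
  have hS0 : 0 ≤ Real.log (S.card : ℝ) := Real.log_natCast_nonneg _
  generalize Real.log (S.card : ℝ) = LS at *
  -- the arithmetic
  have d1 : (κ + 2 - ε) * LS ≤ (κ + 2 - e) * LS := mul_le_mul_of_nonneg_right (by linarith) hS0
  have d2 : (κ + 2 - e) * LS ≤ (κ + 2 - e) * (l2 + L) :=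
    mul_le_mul_of_nonneg_left hnlog (by linarith)
  have d3 : (κ + 2 - e) * (l2 + L) = (κ + 2) * l2 - e * l2 + (κ + 2) * L - e * L := by ring
  have d4 : 0 ≤ e * l2 := by positivity
  have d5 : (1 - (κ + 1) * δ) * (L + s) = L + s - (κ + 1) * δ * (L + s) := by ring
  have d6 : (κ + 1) * δ * (L + s) ≤ (κ + 1) * δ * ((κ + 1) * L) :=
    mul_le_mul_of_nonneg_left (by linarith) (by positivity)
  have d7 : (κ + 1) * δ * ((κ + 1) * L) + κ * ((κ + 3) * δ * L) ≤ e * L := by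
    have h5 : (κ + 1) * δ * ((κ + 1) * L) + κ * ((κ + 3) * δ * L) =
        (δ * L) * ((κ + 1) ^ 2 + κ * (κ + 3)) := by ring
    have h6 : (δ * L) * ((κ + 1) ^ 2 + κ * (κ + 3)) ≤ (δ * L) * (4 * (κ + 2) ^ 2) :=
      mul_le_mul_of_nonneg_left (by nlinarith) (by positivity)
    have h7 : (δ * L) * (4 * (κ + 2) ^ 2) = e * L := by rw [← hδd]; ring
    linarith
  have d8 : κ * ((κ + 3) * δ * L + C) = κ * ((κ + 3) * δ * L) + κ * C := by ring
  have d9 : (κ + 2) * L = (κ + 1) * L + L := by ring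
  linarith

/-- **(2)** for sets of positive integers of small rank -/
theorem det2 (k : ℕ) (ε D : ℝ) (hε : 0 < ε) (hD : 0 < D) : ∃ q : ℕ, 1 ≤ q ∧
    ∀ D2 : ℝ, 0 ≤ D2 → ∃ C : ℝ, 0 ≤ C ∧
    ∀ S : Finset ℕ, k + 1 ≤ S.card → (∀ y ∈ S, 0 < y) →
      (rr S : ℝ) ≤ D * (D2 + Real.log (S.card : ℝ)) →
      ∃ gm : ℕ → ℕ, (∀ y, 1 ≤ gm y ∧ gm y ≤ q) ∧
      ∀ (A : Finset ℤ) (σ : ℤ), (σ = 1 ∨ σ = -1) →
        (∀ y ∈ S, σ * ((gm y : ℤ) * (y : ℤ)) ∈ A) →
        ((k : ℝ) + 1 - ε) * Real.log (S.card : ℝ) - C ≤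
          Real.log ((((Fintype.piFinset (fun _ : Fin (k + 1) => A)).image
            (fun f : Fin (k + 1) → ℤ => ∑ i, f i)).card : ℕ) : ℝ) := by
  classical
  obtain ⟨e, he⟩ : ∃ e : ℝ, e = min ε 1 := ⟨_, rfl⟩
  have he0 : 0 < e := by rw [he]; exact lt_min hε one_pos
  have he1 : e ≤ 1 := by rw [he]; exact min_le_right _ _
  have hee : e ≤ ε := by rw [he]; exact min_le_left _ _
  obtain ⟨κ, hκd⟩ : ∃ κ : ℝ, κ = (k : ℝ) := ⟨_, rfl⟩
  have hκ0 : 0 ≤ κ := by rw [hκd]; exact Nat.cast_nonneg _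
  obtain ⟨δ, hδd, hδ0, hδ1⟩ : ∃ δ : ℝ, δ * (4 * (κ + 2) ^ 2) = e ∧ 0 < δ ∧ δ ≤ 1 / 2 := by
    refine ⟨e / (4 * (κ + 2) ^ 2), by field_simp, by positivity, ?_⟩
    rw [div_le_iff₀ (by positivity)]
    nlinarith
  obtain ⟨q, C, hC, hq, hblock⟩ := good_rank δ D hδ0 hδ1 hD
  have hl2k : 0 ≤ Real.log (2 * (κ + 1)) := Real.log_nonneg (by linarith)
  refine ⟨q, hq, ?_⟩
  intro D2 hD2
  refine ⟨(κ + 1) * Real.log (2 * (κ + 1)) +
    κ * (2 * (C + (D2 + Real.log (2 * (κ + 1))))), by positivity, ?_⟩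
  intro S hS hpos hrank
  obtain ⟨n, hn1, hn2, hnlog⟩ := block_log k S hS
  obtain ⟨Y, hYS, hYc, hYd⟩ := blocks_ex (k + 1) n S hn2
  have hYne : ∀ i, (Y i).Nonempty := fun i => card_pos.1 (by rw [hYc i]; omega)
  have hYpos : ∀ i, ∀ y ∈ Y i, 0 < y := fun i y hy => hpos y (hYS i hy)
  have hL : 0 ≤ Real.log (n : ℝ) := Real.log_natCast_nonneg _
  rw [← hκd] at hnlog
  obtain ⟨g, hg, -, -, hsum⟩ := chain q δ (2 * (C + (D2 + Real.log (2 * (κ + 1)))))
    (Real.log (n : ℝ)) hδ0.le hL k Y (fun _ => 0) hYne (fun i => by rw [hYc i]) (fun i => by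
      apply stp_of_good
      refine hblock (D2 + Real.log (2 * (κ + 1))) (by positivity) (Y i) (hYne i) (hYpos i) ?_
      have h1 : (rr (Y i) : ℝ) ≤ (rr S : ℝ) := by exact_mod_cast rr_mono (hYS i)
      refine (h1.trans hrank).trans ?_
      apply mul_le_mul_of_nonneg_left _ hD.le
      rw [hYc i]
      linarith) hq
  obtain ⟨gm, hgm1, hgm2⟩ := assign (k + 1) q hq Y hYd g hg
  refine ⟨gm, hgm1, ?_⟩
  intro A σ hσ hA
  have h1 := sum_transfer (k + 1) Y hYne g A σ hσ (fun i y hy => by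
    have := hA y (hYS i hy)
    rwa [hgm2 i y hy] at this)
  refine le_trans ?_ h1
  refine le_trans ?_ hsum
  rw [← hκd]
  simp only [sum_const_zero]
  generalize Real.log (n : ℝ) = L at *
  generalize Real.log (2 * (κ + 1)) = l2 at *
  have hS0 : 0 ≤ Real.log (S.card : ℝ) := Real.log_natCast_nonneg _
  generalize Real.log (S.card : ℝ) = LS at *
  have d1 : (κ + 1 - ε) * LS ≤ (κ + 1 - e) * LS := mul_le_mul_of_nonneg_right (by linarith) hS0
  have d2 : (κ + 1 - e) * LS ≤ (κ + 1 - e) * (l2 + L) :=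
    mul_le_mul_of_nonneg_left hnlog (by linarith)
  have d3 : (κ + 1 - e) * (l2 + L) = (κ + 1) * l2 - e * l2 + (κ + 1) * L - e * L := by ring
  have d4 : 0 ≤ e * l2 := by positivity
  have d7 : κ * ((κ + 3) * δ * L) ≤ e * L := by
    have h5 : κ * ((κ + 3) * δ * L) = (δ * L) * (κ * (κ + 3)) := by ring
    have h6 : (δ * L) * (κ * (κ + 3)) ≤ (δ * L) * (4 * (κ + 2) ^ 2) :=
      mul_le_mul_of_nonneg_left (by nlinarith) (by positivity)
    have h7 : (δ * L) * (4 * (κ + 2) ^ 2) = e * L := by rw [← hδd]; ring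
    linarith
  have d8 : κ * ((κ + 3) * δ * L + 2 * (C + (D2 + l2))) =
      κ * ((κ + 3) * δ * L) + κ * (2 * (C + (D2 + l2))) := by ring
  linarith

end Pool.Agent.Helper99.MR
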