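import Pool.Agent.Helper88.MP.ShatterE

set_option autoImplicit false

/-!
# Project MR (MP_120218): a large family of maps to `G` contains all maps to one set `T` on many elements
-/

namespace Pool.Agent.Helper99.MR

open Finset Pool.Agent.Helper88.MP

theorem extractM (p : ℕ) (α : Type) [Fintype α] [DecidableEq α] (G : Finset ℕ) (hG : G.Nonempty)
    (F : Finset (α → {g // g ∈ G})) (hF : (2 * (p + 1)) ^ Fintype.card α < F.card) :
    ∃ (S : Finset α) (T : Finset ℕ), T ⊆ G ∧ T.card = p + 1 ∧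
      Fintype.card α ≤ (p + 2) * G.card ^ (p + 2) * S.card ∧
      ∀ g : α → ℕ, (∀ a, g a ∈ T) → ∃ f ∈ F, ∀ s ∈ S, ((f s : {g // g ∈ G}) : ℕ) = g s := by
  classical
  obtain ⟨q, hq⟩ : ∃ q : ℕ, q = G.card := ⟨_, rfl⟩
  have hq1 : 1 ≤ q := by
    rw [hq]
    exact card_pos.2 hG
  let e : {g // g ∈ G} ≃ Fin q := hq ▸ G.equivFin
  obtain ⟨F', hF'⟩ : ∃ F' : Finset (α → Fin q), F' = F.image (fun f => e ∘ f) := ⟨_, rfl⟩
  have hF'c : F'.card = F.card := by
    rw [hF']
    apply card_image_of_injective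
    intro f f' hff
    funext a
    exact e.injective (congrFun hff a)
  obtain ⟨N, hN⟩ : ∃ N : ℕ, N = Fintype.card α := ⟨_, rfl⟩
  obtain ⟨L, hL⟩ : ∃ L : ℕ, L = Nat.log 2 q + 1 := ⟨_, rfl⟩
  have hL0 : 0 < L := by omega
  have hLq : L ≤ q := by
    rw [hL]
    exact Nat.log_lt_self 2 (by omega)
  have hqL : q ≤ 2 ^ L := by
    rw [hL]
    exact (Nat.lt_pow_succ_log_self (by norm_num) q).le
  have hpL : 0 < (p + 2) * L := Nat.mul_pos (by omega) hL0
  have h1 : q ^ ((p + 2) * (N / ((p + 2) * L))) * (p + 1) ^ (Fintype.card α) < F'.card := by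
    rw [hF'c]
    refine lt_of_le_of_lt ?_ hF
    rw [mul_pow 2 (p + 1) (Fintype.card α), ← hN]
    apply Nat.mul_le_mul_right
    calc q ^ ((p + 2) * (N / ((p + 2) * L))) ≤ (2 ^ L) ^ ((p + 2) * (N / ((p + 2) * L))) :=
          Nat.pow_le_pow_left hqL _
      _ = 2 ^ (((p + 2) * L) * (N / ((p + 2) * L))) := by
          rw [← pow_mul]
          congr 1
          ring
      _ ≤ 2 ^ N := Nat.pow_le_pow_right (by norm_num) (Nat.mul_div_le _ _)
  obtain ⟨S, T, hST, hSc⟩ := shatE_nat hq1 p _ F' h1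
  have hS1 : N ≤ (p + 2) * L * S.card := by
    have h2 : N < (p + 2) * L * (N / ((p + 2) * L) + 1) := Nat.lt_mul_div_succ N hpL
    have h3 : (p + 2) * L * (N / ((p + 2) * L) + 1) ≤ (p + 2) * L * S.card :=
      Nat.mul_le_mul_left _ hSc
    omega
  have hSne : S.Nonempty := card_pos.1 (lt_of_le_of_lt (Nat.zero_le _) hSc)
  obtain ⟨P, hP⟩ : ∃ P : Finset (Finset (Fin q)), P = powersetCard (p + 1) univ := ⟨_, rfl⟩
  have hmaps : ∀ s ∈ S, T s ∈ P := by
    intro s hs
    rw [hP, mem_powersetCard]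
    exact ⟨subset_univ _, hST.1 s hs⟩
  have hPne : P.Nonempty := by
    obtain ⟨s, hs⟩ := hSne
    exact ⟨_, hmaps s hs⟩
  obtain ⟨b0, hb0, hmax⟩ := exists_max_image P (fun b => (S.filter (fun a => T a = b)).card) hPne
  have hSP : S.card ≤ (S.filter (fun a => T a = b0)).card * P.card :=
    card_le_mul_card_image_of_maps_to hmaps _ hmax
  have hPc : P.card ≤ q ^ (p + 1) := by
    rw [hP, card_powersetCard, card_univ, Fintype.card_fin]
    exact Nat.choose_le_pow q (p + 1)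
  obtain ⟨S0, hS0⟩ : ∃ S0 : Finset α, S0 = S.filter (fun a => T a = b0) := ⟨_, rfl⟩
  rw [← hS0] at hSP
  have hb0c : b0.card = p + 1 := by
    rw [hP] at hb0
    exact (mem_powersetCard.1 hb0).2
  obtain ⟨T0, hT0⟩ : ∃ T0 : Finset ℕ, T0 = b0.image (fun i => ((e.symm i : {g // g ∈ G}) : ℕ)) :=
    ⟨_, rfl⟩
  have hT0c : T0.card = p + 1 := by
    rw [hT0, card_image_of_injective, hb0c]
    intro i j hij
    exact e.symm.injective (Subtype.ext hij)
  have hT0G : T0 ⊆ G := by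
    intro g hg
    rw [hT0] at hg
    obtain ⟨i, _, rfl⟩ := mem_image.1 hg
    exact (e.symm i).2
  refine ⟨S0, T0, hT0G, hT0c, ?_, ?_⟩
  · rw [← hN, ← hq]
    calc N ≤ (p + 2) * L * S.card := hS1
      _ ≤ (p + 2) * q * (S0.card * q ^ (p + 1)) :=
          Nat.mul_le_mul (Nat.mul_le_mul_left _ hLq)
            (hSP.trans (Nat.mul_le_mul_left _ hPc))
      _ = (p + 2) * q ^ (p + 2) * S0.card := by ring
  · intro g hg
    have hch : ∀ a, ∃ i : Fin q, (a ∈ S → i ∈ T a) ∧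
        (a ∈ S0 → ((e.symm i : {g // g ∈ G}) : ℕ) = g a) := by
      intro a
      by_cases ha0 : a ∈ S0
      · have h2 := hg a
        rw [hT0] at h2
        obtain ⟨i, hi, hig⟩ := mem_image.1 h2
        refine ⟨i, fun _ => ?_, fun _ => hig⟩
        rw [hS0, mem_filter] at ha0
        rw [ha0.2]
        exact hi
      · by_cases ha : a ∈ S
        · have h2 : (T a).Nonempty := card_pos.1 (by rw [hST.1 a ha]; omega)
          obtain ⟨i, hi⟩ := h2
          exact ⟨i, fun _ => hi, fun h => absurd h ha0⟩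
        · exact ⟨⟨0, hq1⟩, fun h => absurd h ha, fun h => absurd h ha0⟩
    choose g' hg'1 hg'2 using hch
    obtain ⟨f', hf', hf's⟩ := hST.2 g' (fun s hs => hg'1 s hs)
    rw [hF'] at hf'
    obtain ⟨f, hf, rfl⟩ := mem_image.1 hf'
    refine ⟨f, hf, ?_⟩
    intro s hs
    have hsS : s ∈ S := by
      rw [hS0] at hs
      exact (mem_filter.1 hs).1
    have h2 : e (f s) = g' s := hf's s hsS
    rw [← hg'2 s hs, ← h2, Equiv.symm_apply_apply]

end Pool.Agent.Helper99.MR
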