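import Pool.Agent.Helper99.MR.GenT
import Pool.Agent.Helper99.MR.ExtM

set_option autoImplicit false

/-!
# Project MR (MP_120218): at most `C ^ N` assignments of dilates from `G` are bad
-/

namespace Pool.Agent.Helper99.MR

open Finset Pool.Agent.Helper24.MD

/-- the products `f(a) v(a)` -/
def mset {α : Type} [Fintype α] {G : Finset ℕ} (v : α → ℤ) (f : α → {g // g ∈ G}) : Finset ℤ :=
  univ.image (fun a => ((f a : ℕ) : ℤ) * v a)

/-- sums of `k` elements -/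
def ksm (k : ℕ) (A : Finset ℤ) : Finset ℤ :=
  (Fintype.piFinset (fun _ : Fin k => A)).image (fun x : Fin k → ℤ => ∑ i, x i)

/-- products of `k` elements -/
def kpm (k : ℕ) (A : Finset ℤ) : Finset ℤ :=
  (Fintype.piFinset (fun _ : Fin k => A)).image (fun x : Fin k → ℤ => ∏ i, x i)

theorem ksm_ne (k : ℕ) {A : Finset ℤ} (hA : A.Nonempty) : (ksm k A).Nonempty :=
  (Fintype.piFinset_nonempty.2 (fun _ => hA)).image _

theorem kpm_ne (k : ℕ) {A : Finset ℤ} (hA : A.Nonempty) : (kpm k A).Nonempty :=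
  (Fintype.piFinset_nonempty.2 (fun _ => hA)).image _

/-- constants -/
theorem consts (k' p' K C1 D e : ℝ) (hk : 0 ≤ k') (hp : 0 ≤ p') (hK : 0 ≤ K) (he : 0 < e) :
    ∃ c : ℝ, 0 < c ∧ Real.log c ≤ -(C1 + 2 * (k' + 1) * D) ∧
      c * ((k' + 1) * (p' + 2) + K) ≤ e / 2 ∧ c * (p' + 2) ≤ 1 / 2 := by
  obtain ⟨u, hu⟩ : ∃ u : ℝ, u = (k' + 1) * (p' + 2) + K := ⟨_, rfl⟩
  have hu0 : 0 < u := by rw [hu]; positivity
  refine ⟨min (Real.exp (-(C1 + 2 * (k' + 1) * D))) (min (e / 2 / u) (1 / 2 / (p' + 2))),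
    by positivity, ?_, ?_, ?_⟩
  · have h1 : 0 < min (Real.exp (-(C1 + 2 * (k' + 1) * D))) (min (e / 2 / u) (1 / 2 / (p' + 2))) := by
      positivity
    have h2 := Real.log_le_log h1 (min_le_left _ _)
    rwa [Real.log_exp] at h2
  · rw [← hu]
    have h1 : min (Real.exp (-(C1 + 2 * (k' + 1) * D))) (min (e / 2 / u) (1 / 2 / (p' + 2))) ≤
        e / 2 / u := (min_le_right _ _).trans (min_le_left _ _)
    calc _ ≤ e / 2 / u * u := mul_le_mul_of_nonneg_right h1 hu0.le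
      _ = e / 2 := by field_simp
  · have h1 : min (Real.exp (-(C1 + 2 * (k' + 1) * D))) (min (e / 2 / u) (1 / 2 / (p' + 2))) ≤
        1 / 2 / (p' + 2) := (min_le_right _ _).trans (min_le_right _ _)
    calc _ ≤ 1 / 2 / (p' + 2) * (p' + 2) := mul_le_mul_of_nonneg_right h1 (by positivity)
      _ = 1 / 2 := by field_simp

theorem fewM (j : ℕ) (ε : ℝ) (hε : 0 < ε) : ∃ (C : ℕ) (c : ℝ), 1 ≤ C ∧ 0 < c ∧
    ∀ (α : Type) [Fintype α] [DecidableEq α] [Nonempty α] (v : α → ℤ), Function.Injective v →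
      (∀ a, v a ≠ 0) → ∀ G : Finset ℕ,
      (∀ g ∈ G, 1 ≤ g ∧ (g : ℝ) ≤ (Fintype.card α : ℝ) ^ c) →
      (∀ g ∈ G, ∀ g' ∈ G, g ≠ g' → Nat.Coprime g g') →
      ((univ : Finset (α → {g // g ∈ G})).filter (fun f =>
        ¬ (c * (Fintype.card α : ℝ) ^ ((j : ℝ) + 2 - ε) ≤
          ((ksm (j + 1) (mset v f)).card : ℝ) * ((kpm (j + 1) (mset v f)).card : ℝ)))).card ≤
        C ^ Fintype.card α := by
  classical
  obtain ⟨e, he⟩ : ∃ e : ℝ, e = min ε 1 := ⟨_, rfl⟩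
  have he0 : 0 < e := by rw [he]; exact lt_min hε one_pos
  have he1 : e ≤ 1 := by rw [he]; exact min_le_right _ _
  have hee : e ≤ ε := by rw [he]; exact min_le_left _ _
  obtain ⟨m, hm, K, C1, hK, hC1, hdet⟩ := det1T j (e / 2) (by positivity)
  obtain ⟨p, rfl⟩ : ∃ p : ℕ, m = p + 1 := ⟨m - 1, by omega⟩
  obtain ⟨D, hD⟩ : ∃ D : ℝ, D = Real.log ((p : ℝ) + 2) + Real.log 2 + Real.log ((j : ℝ) + 1) :=
    ⟨_, rfl⟩
  have hl1 : 0 ≤ Real.log ((p : ℝ) + 2) := Real.log_nonneg (by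
    have : (0 : ℝ) ≤ p := Nat.cast_nonneg _
    linarith)
  have hl2 : 0 ≤ Real.log 2 := Real.log_nonneg (by norm_num)
  have hl3 : 0 ≤ Real.log ((j : ℝ) + 1) := Real.log_nonneg (by
    have : (0 : ℝ) ≤ j := Nat.cast_nonneg _
    linarith)
  have hD0 : 0 ≤ D := by rw [hD]; positivity
  obtain ⟨c, hc0, hc1, hc2, hc3⟩ := consts ((j : ℝ) + 1) p K C1 D e (by positivity)
    (Nat.cast_nonneg _) hK he0
  refine ⟨2 * (p + 1), c, by omega, hc0, ?_⟩
  intro α _ _ _ v hv hv0 G hG hGc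
  by_contra hcon
  rw [not_le] at hcon
  obtain ⟨F, hF⟩ : ∃ F : Finset (α → {g // g ∈ G}), F =
      (univ : Finset (α → {g // g ∈ G})).filter (fun f =>
        ¬ (c * (Fintype.card α : ℝ) ^ ((j : ℝ) + 2 - ε) ≤
          ((ksm (j + 1) (mset v f)).card : ℝ) * ((kpm (j + 1) (mset v f)).card : ℝ))) := ⟨_, rfl⟩
  rw [← hF] at hcon
  have hFne : F.Nonempty := card_pos.1 (lt_of_le_of_lt (Nat.zero_le _) hcon)
  obtain ⟨f0, hf0⟩ := hFne
  obtain ⟨a0⟩ := (inferInstance : Nonempty α)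
  have hGne : G.Nonempty := ⟨_, (f0 a0).2⟩
  obtain ⟨S, T, hTG, hTc, hScard, hST⟩ := extractM p α G hGne F hcon
  obtain ⟨N, hN⟩ : ∃ N : ℝ, N = (Fintype.card α : ℝ) := ⟨_, rfl⟩
  have hN1 : 1 ≤ N := by
    rw [hN]
    exact_mod_cast Fintype.card_pos
  have hNp : 0 < N := by linarith
  obtain ⟨Q, hQ⟩ : ∃ Q : ℕ, Q = ⌊N ^ c⌋₊ := ⟨_, rfl⟩
  rw [← hN] at hG
  have hGQ : ∀ g ∈ G, g ≤ Q := fun g hg => by
    rw [hQ]
    exact Nat.le_floor (hG g hg).2
  obtain ⟨g1, hg1⟩ := hGne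
  have hQ1 : 1 ≤ Q := (hG g1 hg1).1.trans (hGQ g1 hg1)
  have hQN : (Q : ℝ) ≤ N ^ c := by
    rw [hQ]
    exact Nat.floor_le (by positivity)
  have hlQ : Real.log (Q : ℝ) ≤ c * Real.log N := by
    have h1 : Real.log (Q : ℝ) ≤ Real.log (N ^ c) :=
      Real.log_le_log (by exact_mod_cast hQ1) hQN
    rwa [Real.log_rpow hNp] at h1
  have hGcard : G.card ≤ Q := by
    have h1 : G ⊆ Finset.Icc 1 Q := fun g hg => Finset.mem_Icc.2 ⟨(hG g hg).1, hGQ g hg⟩
    have h2 := card_le_card h1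
    rw [Nat.card_Icc] at h2
    omega
  have hGpos : 0 < G.card := card_pos.2 ⟨g1, hg1⟩
  have hlG : Real.log (G.card : ℝ) ≤ c * Real.log N :=
    (Real.log_le_log (by exact_mod_cast hGpos) (by exact_mod_cast hGcard)).trans hlQ
  have hSpos : 0 < S.card := by
    rcases Nat.eq_zero_or_pos S.card with h | h
    · rw [h, mul_zero] at hScard
      have : 0 < Fintype.card α := Fintype.card_pos
      omega
    · exact h
  -- the larger half
  obtain ⟨SZ, hSZ⟩ : ∃ SZ : Finset ℤ, SZ = S.image v := ⟨_, rfl⟩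
  have hSZc : SZ.card = S.card := by rw [hSZ, card_image_of_injective _ hv]
  obtain ⟨σ, hσ, Y, hYne, hYS, hYc⟩ := half0 SZ (card_pos.1 (by omega)) (by
    rw [hSZ]
    intro h
    obtain ⟨a, _, ha⟩ := mem_image.1 h
    exact hv0 a ha)
  have hYpos : 0 < Y.card := card_pos.2 hYne
  have hNY : N ≤ ((p : ℝ) + 2) * (G.card : ℝ) ^ (p + 2) * (2 * (Y.card : ℝ)) := by
    have h1 : Fintype.card α ≤ (p + 2) * G.card ^ (p + 2) * (2 * Y.card) :=
      hScard.trans (Nat.mul_le_mul_left _ (by omega))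
    rw [hN]
    exact_mod_cast h1
  have hlNY : Real.log N ≤ Real.log ((p : ℝ) + 2) + ((p : ℝ) + 2) * Real.log (G.card : ℝ) +
      (Real.log 2 + Real.log (Y.card : ℝ)) := by
    have hG0 : (0 : ℝ) < (G.card : ℝ) := by exact_mod_cast hGpos
    have hY0 : (0 : ℝ) < (Y.card : ℝ) := by exact_mod_cast hYpos
    have hp2 : (0 : ℝ) < (p : ℝ) + 2 := by positivity
    have h1 := Real.log_le_log hNp hNY
    rw [Real.log_mul (by positivity) (by positivity), Real.log_mul (by positivity) (by positivity),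
      Real.log_pow, Real.log_mul (by norm_num) hY0.ne'] at h1
    push_cast at h1
    linarith
  have hLN : 0 ≤ Real.log N := Real.log_nonneg hN1
  have hLY : 0 ≤ Real.log (Y.card : ℝ) := Real.log_natCast_nonneg _
  have hp0 : (0 : ℝ) ≤ (p : ℝ) := Nat.cast_nonneg _
  have hj0 : (0 : ℝ) ≤ (j : ℝ) := Nat.cast_nonneg _
  have hbad : ∀ f ∈ F, Real.log ((ksm (j + 1) (mset v f)).card : ℝ) +
      Real.log ((kpm (j + 1) (mset v f)).card : ℝ) <
      Real.log c + ((j : ℝ) + 2 - e) * Real.log N := by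
    intro f hf
    rw [hF, mem_filter] at hf
    have h1 := not_le.1 hf.2
    rw [← hN] at h1
    have hA : (mset v f).Nonempty := univ_nonempty.image _
    have hs : (0 : ℝ) < ((ksm (j + 1) (mset v f)).card : ℝ) := by
      exact_mod_cast card_pos.2 (ksm_ne _ hA)
    have hp : (0 : ℝ) < ((kpm (j + 1) (mset v f)).card : ℝ) := by
      exact_mod_cast card_pos.2 (kpm_ne _ hA)
    have h2 := Real.log_lt_log (mul_pos hs hp) h1
    rw [Real.log_mul hs.ne' hp.ne', Real.log_mul hc0.ne' (Real.rpow_pos_of_pos hNp _).ne',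
      Real.log_rpow hNp] at h2
    have h3 : ((j : ℝ) + 2 - ε) * Real.log N ≤ ((j : ℝ) + 2 - e) * Real.log N :=
      mul_le_mul_of_nonneg_right (by linarith) hLN
    linarith
  have hpc : ((p : ℝ) + 2) * Real.log (G.card : ℝ) ≤ c * ((p : ℝ) + 2) * Real.log N := by
    have := mul_le_mul_of_nonneg_left hlG (by positivity : (0 : ℝ) ≤ (p : ℝ) + 2)
    linarith
  by_cases hYj : j + 1 ≤ Y.card
  · obtain ⟨gm, hgm, hmain⟩ := hdet T hTc
      (fun g hg g' hg' hne => hGc g (hTG hg) g' (hTG hg') hne) (fun g hg => (hG g (hTG hg)).1) Q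
      (fun g hg => hGQ g (hTG hg)) Y hYj (fun y hy => (hYS y hy).1)
    obtain ⟨f, hf, hfs⟩ := hST (fun a => gm (v a).natAbs) (fun a => hgm _)
    have h1 := hmain (mset v f) σ hσ (by
      intro y hy
      obtain ⟨hy0, hyS⟩ := hYS y hy
      rw [hSZ] at hyS
      obtain ⟨a, ha, hva⟩ := mem_image.1 hyS
      refine mem_image.2 ⟨a, mem_univ _, ?_⟩
      rw [hfs a ha]
      have hnat : (v a).natAbs = y := by
        rw [hva, Int.natAbs_mul]
        rcases hσ with rfl | rfl <;> simp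
      rw [hnat, hva]
      ring)
    have h2 := hbad f hf
    have h1' : ((j : ℝ) + 2 - e / 2) * Real.log (Y.card : ℝ) - C1 - K * Real.log (Q : ℝ) ≤
        Real.log ((ksm (j + 1) (mset v f)).card : ℝ) +
        Real.log ((kpm (j + 1) (mset v f)).card : ℝ) := h1
    have hKQ : K * Real.log (Q : ℝ) ≤ K * (c * Real.log N) := mul_le_mul_of_nonneg_left hlQ hK
    generalize Real.log N = LN at *
    generalize Real.log (Y.card : ℝ) = LY at *
    generalize Real.log (Q : ℝ) = lQ at *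
    generalize Real.log (G.card : ℝ) = lG at *
    generalize Real.log ((ksm (j + 1) (mset v f)).card : ℝ) = r1 at *
    generalize Real.log ((kpm (j + 1) (mset v f)).card : ℝ) = r2 at *
    generalize Real.log ((p : ℝ) + 2) = lp at *
    generalize Real.log 2 = ll at *
    generalize Real.log ((j : ℝ) + 1) = lj at *
    have a1 : ((j : ℝ) + 2 - e / 2) * (LN - lp - ll - c * ((p : ℝ) + 2) * LN) ≤
        ((j : ℝ) + 2 - e / 2) * LY := mul_le_mul_of_nonneg_left (by linarith) (by linarith)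
    have a2 : ((j : ℝ) + 2 - e / 2) * (LN - lp - ll - c * ((p : ℝ) + 2) * LN) =
        ((j : ℝ) + 2 - e / 2) * LN - ((j : ℝ) + 2 - e / 2) * (lp + ll) -
          ((j : ℝ) + 2 - e / 2) * (c * ((p : ℝ) + 2) * LN) := by ring
    have a3 : ((j : ℝ) + 2 - e / 2) * (lp + ll) ≤ ((j : ℝ) + 2) * (lp + ll) :=
      mul_le_mul_of_nonneg_right (by linarith) (by linarith)
    have a4 : ((j : ℝ) + 2 - e / 2) * (c * ((p : ℝ) + 2) * LN) ≤
        ((j : ℝ) + 2) * (c * ((p : ℝ) + 2) * LN) :=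
      mul_le_mul_of_nonneg_right (by linarith) (by positivity)
    have a5 : c * (((j : ℝ) + 1 + 1) * ((p : ℝ) + 2) + K) * LN ≤ e / 2 * LN :=
      mul_le_mul_of_nonneg_right hc2 hLN
    have a6 : ((j : ℝ) + 2) * (lp + ll) ≤ 2 * ((j : ℝ) + 1 + 1) * D := by
      rw [hD]
      nlinarith
    have a7 : c * (((j : ℝ) + 1 + 1) * ((p : ℝ) + 2) + K) * LN =
        ((j : ℝ) + 2) * (c * ((p : ℝ) + 2) * LN) + K * (c * LN) := by ring
    have a8 : ((j : ℝ) + 2 - e / 2) * LN = ((j : ℝ) + 2 - e) * LN + e / 2 * LN := by ring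
    linarith
  · have h1 : (Y.card : ℝ) ≤ (j : ℝ) + 1 := by
      have : Y.card ≤ j + 1 := by omega
      exact_mod_cast this
    have h2 : Real.log (Y.card : ℝ) ≤ Real.log ((j : ℝ) + 1) :=
      Real.log_le_log (by exact_mod_cast hYpos) h1
    have h3 := hbad f0 hf0
    have h4 : 0 ≤ Real.log ((ksm (j + 1) (mset v f0)).card : ℝ) := Real.log_natCast_nonneg _
    have h5 : 0 ≤ Real.log ((kpm (j + 1) (mset v f0)).card : ℝ) := Real.log_natCast_nonneg _
    have h6 : c * ((p : ℝ) + 2) * Real.log N ≤ 1 / 2 * Real.log N :=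
      mul_le_mul_of_nonneg_right hc3 hLN
    have h7 : Real.log N ≤ 2 * D := by
      rw [hD]
      linarith
    have h8 : ((j : ℝ) + 2 - e) * Real.log N ≤ ((j : ℝ) + 2) * (2 * D) :=
      mul_le_mul (by linarith) h7 hLN (by linarith)
    have h9 : ((j : ℝ) + 2) * (2 * D) = 2 * ((j : ℝ) + 1 + 1) * D := by ring
    linarith

end Pool.Agent.Helper99.MR
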