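import Pool.Agent.Helper88.MP.Shatter

set_option autoImplicit false

/-!
# Project MR (MP_120218): the shattering lemma with a real parameter

Copy of `shatter_fin` of Helper88/MP/Shatter.lean with a weight `z`.
-/

namespace Pool.Agent.Helper99.MR

open Finset Pool.Agent.Helper88.MP

theorem shat_fin {q : ℕ} (p : ℕ) (z : ℝ) (hz : 0 < z) (hz1 : z ≤ 1) :
    ∀ (N d : ℕ) (F : Finset (Fin N → Fin q)), (∀ S T, Shat p F S T → S.card ≤ d) →
    (F.card : ℝ) * z ^ d ≤ ((p : ℝ) + q * 2 ^ q * z) ^ N := by
  classical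
  intro N
  induction N with
  | zero =>
    intro d F _
    have h1 : F.card ≤ 1 := by
      refine le_trans (card_le_univ F) ?_
      simp
    have h2 : (F.card : ℝ) ≤ 1 := by exact_mod_cast h1
    have h3 : z ^ d ≤ 1 := pow_le_one₀ hz.le hz1
    rw [pow_zero]
    have h4 : 0 ≤ z ^ d := by positivity
    nlinarith
  | succ N ih =>
    intro d F hF
    obtain ⟨fib, hfib⟩ : ∃ fib : (Fin N → Fin q) → Finset (Fin q), ∀ y x,
        x ∈ fib y ↔ (Fin.cons x y : Fin (N + 1) → Fin q) ∈ F :=
      ⟨fun y => univ.filter (fun x => (Fin.cons x y : Fin (N + 1) → Fin q) ∈ F), fun y x => by simp⟩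
    obtain ⟨P, hP⟩ : ∃ P : Finset (Fin N → Fin q), P = F.image Fin.tail := ⟨_, rfl⟩
    have h1 : F.card ≤ ∑ y ∈ P, (fib y).card := by
      rw [hP, card_eq_sum_card_image Fin.tail F]
      refine sum_le_sum fun y _ => ?_
      refine card_le_card_of_injOn (fun f => f 0) ?_ ?_
      · intro f hf
        obtain ⟨hf1, hf2⟩ := mem_filter.1 (mem_coe.1 hf)
        refine mem_coe.2 ((hfib _ _).2 ?_)
        rw [← hf2, Fin.cons_self_tail]
        exact hf1
      · intro f hf f' hf' h
        obtain ⟨_, hf2⟩ := mem_filter.1 (mem_coe.1 hf)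
        obtain ⟨_, hf2'⟩ := mem_filter.1 (mem_coe.1 hf')
        simp only at h
        rw [← Fin.cons_self_tail f, ← Fin.cons_self_tail f', hf2, hf2', h]
    have hPc : (P.card : ℝ) * z ^ d ≤ ((p : ℝ) + q * 2 ^ q * z) ^ N := by
      apply ih
      intro S T hST
      have := hF (S.map (Fin.succEmb N)) (Fin.cons ∅ T) ⟨?_, ?_⟩
      · rwa [card_map] at this
      · intro s hs
        obtain ⟨s', hs', rfl⟩ := mem_map.1 hs
        rw [Fin.coe_succEmb, Fin.cons_succ]
        exact hST.1 s' hs'
      · intro g hg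
        obtain ⟨y, hy, hys⟩ := hST.2 (fun s => g s.succ) (fun s hs => by
          have := hg s.succ (mem_map.2 ⟨s, hs, rfl⟩)
          rwa [Fin.cons_succ] at this)
        rw [hP] at hy
        obtain ⟨f, hf, rfl⟩ := mem_image.1 hy
        refine ⟨f, hf, ?_⟩
        intro s hs
        obtain ⟨s', hs', rfl⟩ := mem_map.1 hs
        exact hys s' hs'
    obtain ⟨G, hG⟩ : ∃ G : Finset (Fin N → Fin q), G = P.filter (fun y => p < (fib y).card) :=
      ⟨_, rfl⟩
    have h2 : ∑ y ∈ P, (fib y).card ≤ p * P.card + q * G.card := by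
      have h3 : ∀ y ∈ P, (fib y).card ≤ p + (if p < (fib y).card then q else 0) := by
        intro y _
        split_ifs with h
        · have : (fib y).card ≤ q := le_trans (card_le_univ _) (by simp)
          omega
        · omega
      refine le_trans (sum_le_sum h3) ?_
      rw [sum_add_distrib, sum_const, ← sum_filter, sum_const, smul_eq_mul, smul_eq_mul, ← hG]
      exact le_of_eq (by ring)
    have hX0 : 0 ≤ ((p : ℝ) + q * 2 ^ q * z) ^ N := by positivity
    have hGc : (q : ℝ) * G.card * z ^ d ≤ q * 2 ^ q * z * ((p : ℝ) + q * 2 ^ q * z) ^ N := by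
      cases d with
      | zero =>
        have : G = ∅ := by
          rw [eq_empty_iff_forall_notMem]
          intro y hy
          rw [hG] at hy
          obtain ⟨_, hy2⟩ := mem_filter.1 hy
          have := hF {0} (fun _ => fib y) ⟨fun s _ => hy2, ?_⟩
          · simp at this
          · intro g hg
            refine ⟨_, (hfib _ _).1 (hg 0 (mem_singleton_self _)), ?_⟩
            intro s hs
            rw [mem_singleton.1 hs, Fin.cons_zero]
        rw [this, card_empty, Nat.cast_zero, mul_zero, zero_mul]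
        positivity
      | succ d =>
        have h4 : ∀ T : Finset (Fin q), ((G.filter (fun y => fib y = T)).card : ℝ) * z ^ d ≤
            ((p : ℝ) + q * 2 ^ q * z) ^ N := by
          intro T
          by_cases hT : p < T.card
          · apply ih
            intro S T' hST
            have := hF (insert 0 (S.map (Fin.succEmb N))) (Fin.cons T T') ⟨?_, ?_⟩
            · rw [card_insert_of_notMem, card_map] at this
              · omega
              · intro h
                obtain ⟨s', _, hs''⟩ := mem_map.1 h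
                exact Fin.succ_ne_zero _ hs''
            · intro s hs
              rcases mem_insert.1 hs with rfl | hs
              · rw [Fin.cons_zero]
                exact hT
              · obtain ⟨s', hs', rfl⟩ := mem_map.1 hs
                rw [Fin.coe_succEmb, Fin.cons_succ]
                exact hST.1 s' hs'
            · intro g hg
              obtain ⟨y, hy, hys⟩ := hST.2 (fun s => g s.succ) (fun s hs => by
                have := hg s.succ (mem_insert_of_mem (mem_map.2 ⟨s, hs, rfl⟩))
                rwa [Fin.cons_succ] at this)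
              obtain ⟨hy1, hy2⟩ := mem_filter.1 hy
              have h0 : g 0 ∈ T := by
                have := hg 0 (mem_insert_self _ _)
                rwa [Fin.cons_zero] at this
              rw [← hy2] at h0
              refine ⟨_, (hfib _ _).1 h0, ?_⟩
              intro s hs
              rcases mem_insert.1 hs with rfl | hs
              · rw [Fin.cons_zero]
              · obtain ⟨s', hs', rfl⟩ := mem_map.1 hs
                rw [Fin.coe_succEmb, Fin.cons_succ]
                exact hys s' hs'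
          · have : G.filter (fun y => fib y = T) = ∅ := by
              rw [filter_eq_empty_iff]
              intro y hy h
              rw [hG] at hy
              rw [← h] at hT
              exact hT (mem_filter.1 hy).2
            rw [this, card_empty, Nat.cast_zero, zero_mul]
            exact hX0
        have h5 : (G.card : ℝ) = ∑ T : Finset (Fin q), ((G.filter (fun y => fib y = T)).card : ℝ) := by
          have := card_eq_sum_card_fiberwise (f := fib) (s := G)
            (t := (univ : Finset (Finset (Fin q)))) (fun _ _ => by simp)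
          rw [this]
          push_cast
          rfl
        have h6 : (G.card : ℝ) * z ^ d ≤ 2 ^ q * ((p : ℝ) + q * 2 ^ q * z) ^ N := by
          rw [h5, sum_mul]
          refine (sum_le_sum fun T _ => h4 T).trans ?_
          rw [sum_const, card_univ, Fintype.card_finset, Fintype.card_fin, nsmul_eq_mul]
          push_cast
          exact le_rfl
        calc (q : ℝ) * G.card * z ^ (d + 1) = q * z * (G.card * z ^ d) := by ring
          _ ≤ q * z * (2 ^ q * ((p : ℝ) + q * 2 ^ q * z) ^ N) :=
              mul_le_mul_of_nonneg_left h6 (by positivity)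
          _ = _ := by ring
    have h7 : (F.card : ℝ) ≤ p * P.card + q * G.card := by exact_mod_cast le_trans h1 h2
    have h8 : 0 ≤ z ^ d := by positivity
    calc (F.card : ℝ) * z ^ d ≤ (p * P.card + q * G.card) * z ^ d :=
          mul_le_mul_of_nonneg_right h7 h8
      _ = p * (P.card * z ^ d) + q * G.card * z ^ d := by ring
      _ ≤ p * ((p : ℝ) + q * 2 ^ q * z) ^ N + q * 2 ^ q * z * ((p : ℝ) + q * 2 ^ q * z) ^ N :=
          add_le_add (mul_le_mul_of_nonneg_left hPc (Nat.cast_nonneg _)) hGc
      _ = _ := by ring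


/-- transfer to an arbitrary index type -/
theorem shat_type {α : Type} [Fintype α] [DecidableEq α] {q : ℕ} (p d : ℕ) (z : ℝ) (hz : 0 < z)
    (hz1 : z ≤ 1) (F : Finset (α → Fin q))
    (h : ((p : ℝ) + q * 2 ^ q * z) ^ (Fintype.card α) < (F.card : ℝ) * z ^ d) :
    ∃ (S : Finset α) (T : α → Finset (Fin q)), Shat p F S T ∧ d < S.card := by
  classical
  by_contra hcon
  push Not at hcon
  let e := Fintype.equivFin α
  have hinj : Function.Injective (fun (f : α → Fin q) => f ∘ e.symm) := by
    intro f f' hff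
    funext a
    have := congrFun hff (e a)
    simpa using this
  have h1 := shat_fin (q := q) p z hz hz1 (Fintype.card α) d (F.image (fun f => f ∘ e.symm)) ?_
  · rw [card_image_of_injective _ hinj] at h1
    linarith
  · intro S T hST
    have := hcon (S.map e.symm.toEmbedding) (fun a => T (e a)) ⟨?_, ?_⟩
    · rwa [card_map] at this
    · intro s hs
      obtain ⟨s', hs', rfl⟩ := mem_map.1 hs
      have := hST.1 s' hs'
      simpa using this
    · intro g hg
      obtain ⟨y, hy, hys⟩ := hST.2 (fun s => g (e.symm s)) (fun s hs => by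
        have := hg (e.symm s) (mem_map.2 ⟨s, hs, rfl⟩)
        simpa using this)
      obtain ⟨f, hf, rfl⟩ := mem_image.1 hy
      refine ⟨f, hf, ?_⟩
      intro s hs
      obtain ⟨s', hs', rfl⟩ := mem_map.1 hs
      exact hys s' hs'

/-- **shattering by all values** -/
theorem shat_all (q : ℕ) (hq : 0 < q) : ∃ c : ℝ, 0 < c ∧
    ∀ (α : Type) [Fintype α] [DecidableEq α] (F : Finset (α → Fin q)),
    Real.exp (-(c * (Fintype.card α : ℝ))) * (q : ℝ) ^ (Fintype.card α) < (F.card : ℝ) →
    ∃ S : Finset α, c * (Fintype.card α : ℝ) ≤ (S.card : ℝ) ∧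
      ∀ g : α → Fin q, ∃ f ∈ F, ∀ s ∈ S, f s = g s := by
  classical
  have hq0 : (0 : ℝ) < q := by exact_mod_cast hq
  have hq1 : (1 : ℝ) ≤ q := by exact_mod_cast hq
  obtain ⟨z, hz, hz1, hzq⟩ : ∃ z : ℝ, 0 < z ∧ z ≤ 1 ∧ (q : ℝ) * 2 ^ q * z = 1 / 2 := by
    refine ⟨1 / (2 * (q * 2 ^ q)), by positivity, ?_, by field_simp⟩
    rw [div_le_one (by positivity)]
    have : (1 : ℝ) ≤ 2 ^ q := one_le_pow₀ (by norm_num)
    nlinarith
  have hlz : 0 ≤ Real.log (1 / z) := Real.log_nonneg (by rw [le_div_iff₀ hz]; linarith)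
  obtain ⟨c, hc, hc1⟩ : ∃ c : ℝ, 0 < c ∧ c * (1 + Real.log (1 / z)) ≤ 1 / (2 * q) := by
    refine ⟨1 / (2 * q) / (1 + Real.log (1 / z)), by positivity, ?_⟩
    rw [div_mul_cancel₀ _ (by positivity)]
  refine ⟨c, hc, ?_⟩
  intro α _ _ F hF
  obtain ⟨N, hN⟩ : ∃ N : ℕ, N = Fintype.card α := ⟨_, rfl⟩
  rw [← hN] at hF ⊢
  have hcN : 0 ≤ c * (N : ℝ) := by positivity
  -- the number of coordinates
  obtain ⟨d, hd⟩ : ∃ d : ℕ, d = ⌈c * (N : ℝ)⌉₊ - 1 := ⟨_, rfl⟩
  rcases Nat.eq_zero_or_pos N with hN0 | hN0
  · refine ⟨∅, by rw [hN0]; simp, ?_⟩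
    intro g
    have h1 : (0 : ℝ) < F.card := lt_of_le_of_lt (by positivity) hF
    obtain ⟨f, hf⟩ := card_pos.1 (by exact_mod_cast h1 : 0 < F.card)
    exact ⟨f, hf, fun s hs => absurd hs (Finset.notMem_empty _)⟩
  have hNpos : (0 : ℝ) < N := by exact_mod_cast hN0
  have hceil : 0 < ⌈c * (N : ℝ)⌉₊ := Nat.ceil_pos.2 (by positivity)
  have hdN : (d : ℝ) ≤ c * N := by
    have h1 := Nat.ceil_lt_add_one hcN
    have h2 : ((⌈c * (N : ℝ)⌉₊ - 1 : ℕ) : ℝ) = (⌈c * (N : ℝ)⌉₊ : ℝ) - 1 := by
      rw [Nat.cast_sub hceil]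
      simp
    rw [hd, h2]
    linarith
  have hmain : (((q - 1 : ℕ) : ℝ) + q * 2 ^ q * z) ^ (Fintype.card α) < (F.card : ℝ) * z ^ d := by
    rw [← hN, hzq]
    have h1 : ((q - 1 : ℕ) : ℝ) + 1 / 2 = q * (1 - 1 / (2 * q)) := by
      rw [Nat.cast_sub hq]
      field_simp
      push_cast
      ring
    rw [h1, mul_pow]
    have h2 : (1 - 1 / (2 * (q : ℝ))) ^ N ≤ Real.exp (-(1 / (2 * q) * N)) := by
      have h3 : 1 - 1 / (2 * (q : ℝ)) ≤ Real.exp (-(1 / (2 * q))) := by
        have := Real.add_one_le_exp (-(1 / (2 * (q : ℝ))))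
        linarith
      have h4 : 0 ≤ 1 - 1 / (2 * (q : ℝ)) := by
        have : 1 / (2 * (q : ℝ)) ≤ 1 := by
          rw [div_le_one (by positivity)]
          linarith
        linarith
      calc (1 - 1 / (2 * (q : ℝ))) ^ N ≤ (Real.exp (-(1 / (2 * q)))) ^ N :=
            pow_le_pow_left₀ h4 h3 N
        _ = Real.exp (-(1 / (2 * q) * N)) := by
            rw [← Real.exp_nat_mul]
            congr 1
            ring
    have h5 : Real.exp (-(c * (Real.log (1 / z)) * N)) ≤ z ^ d := by
      rw [← Real.exp_log hz, ← Real.exp_nat_mul]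
      apply Real.exp_le_exp.2
      rw [Real.exp_log hz, one_div, Real.log_inv]
      have h6 : Real.log z ≤ 0 := Real.log_nonpos hz.le hz1
      nlinarith
    have h7 : Real.exp (-(1 / (2 * q) * N)) ≤ Real.exp (-(c * N)) * Real.exp (-(c * (Real.log (1 / z)) * N)) := by
      rw [← Real.exp_add]
      apply Real.exp_le_exp.2
      nlinarith
    calc (q : ℝ) ^ N * (1 - 1 / (2 * (q : ℝ))) ^ N ≤
        (q : ℝ) ^ N * (Real.exp (-(c * N)) * Real.exp (-(c * (Real.log (1 / z)) * N))) :=
          mul_le_mul_of_nonneg_left (h2.trans h7) (by positivity)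
      _ = (Real.exp (-(c * N)) * (q : ℝ) ^ N) * Real.exp (-(c * (Real.log (1 / z)) * N)) := by ring
      _ < (F.card : ℝ) * Real.exp (-(c * (Real.log (1 / z)) * N)) :=
          mul_lt_mul_of_pos_right hF (Real.exp_pos _)
      _ ≤ (F.card : ℝ) * z ^ d := mul_le_mul_of_nonneg_left h5 (Nat.cast_nonneg _)
  obtain ⟨S, T, hST, hdS⟩ := shat_type (q - 1) d z hz hz1 F hmain
  refine ⟨S, ?_, ?_⟩
  · have h1 : ⌈c * (N : ℝ)⌉₊ ≤ S.card := by omega
    exact (Nat.le_ceil _).trans (by exact_mod_cast h1)
  · intro g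
    refine hST.2 g ?_
    intro s hs
    have h1 := hST.1 s hs
    have h2 : (T s).card ≤ q := by
      refine le_trans (card_le_univ _) ?_
      simp
    have h3 : T s = univ := by
      apply Finset.eq_univ_of_card
      rw [Fintype.card_fin]
      omega
    rw [h3]
    exact mem_univ _

end Pool.Agent.Helper99.MR
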