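import Pool.Agent.Helper99.MR.Det
import Pool.Agent.Helper99.MR.Shat
import Pool.Agent.Helper24.MD.Final

set_option autoImplicit false

/-!
# Project MR (MP_120218): random bounded dilations of an arbitrary set
-/

namespace Pool.Agent.Helper99.MR

open Finset Pool.Agent.Helper24.MD

/-- the set of the dilates `(f b + 1) b` -/
def dset {M : ℕ} (B : Finset ℤ) (f : {b // b ∈ B} → Fin M) : Finset ℤ :=
  univ.image (fun b : {b // b ∈ B} => (((f b : ℕ) : ℤ) + 1) * (b : ℤ))

theorem dset_nonempty {M : ℕ} {B : Finset ℤ} (hB : B.Nonempty) (f : {b // b ∈ B} → Fin M) :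
    (dset B f).Nonempty := by
  obtain ⟨b, hb⟩ := hB
  exact ⟨_, mem_image.2 ⟨⟨b, hb⟩, mem_univ _, rfl⟩⟩

/-- a property which holds for one assignment on every large subset holds for most maps -/
theorem most (M : ℕ) (hM : 0 < M) : ∃ c : ℝ, 0 < c ∧
    ∀ B : Finset ℤ, B.Nonempty → (0 : ℤ) ∉ B →
    ∀ (P : ({b // b ∈ B} → Fin M) → Prop) [DecidablePred P], (∀ (S : Finset ℕ) (σ : ℤ), (σ = 1 ∨ σ = -1) →
      (∀ y ∈ S, 0 < y ∧ σ * (y : ℤ) ∈ B) → c * (B.card : ℝ) ≤ 2 * (S.card : ℝ) → S.Nonempty →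
      ∃ gm : ℕ → ℕ, (∀ y, 1 ≤ gm y ∧ gm y ≤ M) ∧
        ∀ f : {b // b ∈ B} → Fin M,
          (∀ y ∈ S, σ * ((gm y : ℤ) * (y : ℤ)) ∈ dset B f) → P f) →
      (((univ : Finset ({b // b ∈ B} → Fin M)).filter (fun f => ¬ P f)).card : ℝ) ≤
        Real.exp (-(c * (B.card : ℝ))) * (M : ℝ) ^ B.card := by
  classical
  obtain ⟨c, hc, hshat⟩ := shat_all M hM
  refine ⟨c, hc, ?_⟩
  intro B hB h0 P _ hP
  by_contra hcon
  push Not at hcon
  obtain ⟨S, hS1, hS2⟩ := hshat {b // b ∈ B} ((univ : Finset ({b // b ∈ B} → Fin M)).filter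
    (fun f => ¬ P f)) (by
      rw [Fintype.card_coe]
      exact hcon)
  rw [Fintype.card_coe] at hS1
  have hBc : (0 : ℝ) < B.card := by exact_mod_cast card_pos.2 hB
  have hSpos : (0 : ℝ) < S.card := lt_of_lt_of_le (by positivity) hS1
  have hSne : S.Nonempty := card_pos.1 (by exact_mod_cast hSpos)
  obtain ⟨S', hS'⟩ : ∃ S' : Finset ℤ, S' = S.map (Function.Embedding.subtype _) := ⟨_, rfl⟩
  have hS'ne : S'.Nonempty := by
    rw [hS']
    exact hSne.map
  have hS'B : S' ⊆ B := by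
    intro z hz
    rw [hS'] at hz
    obtain ⟨b, -, rfl⟩ := mem_map.1 hz
    exact b.2
  obtain ⟨σ, hσ, Y, hYne, hYS, hYc⟩ := half0 S' hS'ne (fun h => h0 (hS'B h))
  rw [hS', card_map] at hYc
  obtain ⟨gm, hgm, hall⟩ := hP Y σ hσ (fun y hy => ⟨(hYS y hy).1, hS'B (hYS y hy).2⟩) (by
    have : (S.card : ℝ) ≤ 2 * (Y.card : ℝ) := by exact_mod_cast hYc
    linarith) hYne
  obtain ⟨f, hf, hfs⟩ := hS2 (fun b => ⟨gm (b : ℤ).natAbs - 1, by
    have := hgm (b : ℤ).natAbs
    omega⟩)
  refine (mem_filter.1 hf).2 (hall f ?_)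
  intro y hy
  have h1 := (hYS y hy).2
  rw [hS'] at h1
  obtain ⟨b, hb, hby⟩ := mem_map.1 h1
  have hby' : (b : ℤ) = σ * (y : ℤ) := hby
  have hnat : (b : ℤ).natAbs = y := by
    rw [hby', Int.natAbs_mul]
    rcases hσ with rfl | rfl <;> simp
  refine mem_image.2 ⟨b, mem_univ _, ?_⟩
  rw [hfs b hb]
  have h2 := (hgm (b : ℤ).natAbs).1
  show (((gm (b : ℤ).natAbs - 1 : ℕ) : ℤ) + 1) * (b : ℤ) = _
  rw [hnat] at h2 ⊢
  rw [Nat.cast_sub h2, hby']
  push_cast
  ring

/-- from logarithms to powers, for large and small sets at once -/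
theorem pow_bound (a C N0 : ℝ) (hN0 : 1 ≤ N0) : ∃ c : ℝ, 0 < c ∧ ∀ N T : ℝ, 1 ≤ N → 1 ≤ T →
    (N0 ≤ N → a * Real.log N - C ≤ Real.log T) → c * N ^ a ≤ T := by
  refine ⟨min (Real.exp (-C)) ((N0 ^ |a|)⁻¹), by positivity, ?_⟩
  intro N T hN hT h
  have hN0' : 0 < N := by linarith
  by_cases hNN : N0 ≤ N
  · have h1 : min (Real.exp (-C)) ((N0 ^ |a|)⁻¹) * N ^ a ≤ Real.exp (-C) * N ^ a :=
      mul_le_mul_of_nonneg_right (min_le_left _ _) (by positivity)
    refine h1.trans ?_
    have h2 := h hNN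
    rw [← Real.exp_log (by linarith : (0 : ℝ) < T), Real.rpow_def_of_pos hN0', ← Real.exp_add]
    apply Real.exp_le_exp.2
    linarith
  · push Not at hNN
    have h1 : min (Real.exp (-C)) ((N0 ^ |a|)⁻¹) * N ^ a ≤ (N0 ^ |a|)⁻¹ * N ^ a :=
      mul_le_mul_of_nonneg_right (min_le_right _ _) (by positivity)
    refine h1.trans (le_trans ?_ hT)
    have h2 : N ^ a ≤ N0 ^ |a| := by
      calc N ^ a ≤ N ^ |a| := Real.rpow_le_rpow_of_exponent_le hN (le_abs_self a)
        _ ≤ N0 ^ |a| := Real.rpow_le_rpow hN0'.le hNN.le (abs_nonneg a)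
    rw [inv_mul_le_iff₀ (by positivity), mul_one]
    exact h2

/-- **Random bounded dilations, (1)** -/
theorem random1 (k : ℕ) (hk : 1 ≤ k) (ε : ℝ) (hε : 0 < ε) :
    ∃ M : ℕ, 0 < M ∧ ∃ c : ℝ, 0 < c ∧ ∀ B : Finset ℤ, B.Nonempty → (0 : ℤ) ∉ B →
      (((univ : Finset ({b // b ∈ B} → Fin M)).filter (fun f =>
        ¬ (c * (B.card : ℝ) ^ ((k : ℝ) + 1 - ε) ≤
          (((Fintype.piFinset (fun _ : Fin k => dset B f)).image
            (fun x : Fin k → ℤ => ∑ i, x i)).card : ℝ) *
          (((Fintype.piFinset (fun _ : Fin k => dset B f)).image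
            (fun x : Fin k → ℤ => ∏ i, x i)).card : ℝ)))).card : ℝ) ≤
        Real.exp (-(c * (B.card : ℝ))) * (M : ℝ) ^ B.card := by
  classical
  obtain ⟨j, rfl⟩ : ∃ j : ℕ, k = j + 1 := ⟨k - 1, by omega⟩
  obtain ⟨q, hq, C, hC, hdet⟩ := det1 j ε hε
  obtain ⟨c1, hc1, hmost⟩ := most q hq
  obtain ⟨c2, hc2, hpow⟩ := pow_bound ((j : ℝ) + 2 - ε) (C + |(j : ℝ) + 2 - ε| * |Real.log (c1 / 2)|)
    (max 1 (2 * ((j : ℝ) + 1) / c1)) (le_max_left _ _)
  refine ⟨q, hq, min c1 c2, lt_min hc1 hc2, ?_⟩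
  intro B hB h0
  have hBc : (1 : ℝ) ≤ B.card := by exact_mod_cast card_pos.2 hB
  have hmain := hmost B hB h0 (fun f => c2 * (B.card : ℝ) ^ ((j : ℝ) + 2 - ε) ≤
          (((Fintype.piFinset (fun _ : Fin (j + 1) => dset B f)).image
            (fun x : Fin (j + 1) → ℤ => ∑ i, x i)).card : ℝ) *
          (((Fintype.piFinset (fun _ : Fin (j + 1) => dset B f)).image
            (fun x : Fin (j + 1) → ℤ => ∏ i, x i)).card : ℝ)) ?_
  · -- comparison of the two statements
    have h1 : (((univ : Finset ({b // b ∈ B} → Fin q)).filter (fun f =>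
        ¬ (min c1 c2 * (B.card : ℝ) ^ (((j + 1 : ℕ) : ℝ) + 1 - ε) ≤
          (((Fintype.piFinset (fun _ : Fin (j + 1) => dset B f)).image
            (fun x : Fin (j + 1) → ℤ => ∑ i, x i)).card : ℝ) *
          (((Fintype.piFinset (fun _ : Fin (j + 1) => dset B f)).image
            (fun x : Fin (j + 1) → ℤ => ∏ i, x i)).card : ℝ)))).card : ℝ) ≤
        (((univ : Finset ({b // b ∈ B} → Fin q)).filter (fun f =>
        ¬ (c2 * (B.card : ℝ) ^ ((j : ℝ) + 2 - ε) ≤
          (((Fintype.piFinset (fun _ : Fin (j + 1) => dset B f)).image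
            (fun x : Fin (j + 1) → ℤ => ∑ i, x i)).card : ℝ) *
          (((Fintype.piFinset (fun _ : Fin (j + 1) => dset B f)).image
            (fun x : Fin (j + 1) → ℤ => ∏ i, x i)).card : ℝ)))).card : ℝ) := by
      apply Nat.cast_le.2
      apply card_le_card
      intro f hf
      rw [mem_filter] at hf ⊢
      refine ⟨hf.1, fun hcon => hf.2 (le_trans ?_ hcon)⟩
      have h2 : ((j + 1 : ℕ) : ℝ) + 1 - ε = (j : ℝ) + 2 - ε := by
        push_cast
        ring
      rw [h2]
      exact mul_le_mul_of_nonneg_right (min_le_right _ _) (by positivity)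
    refine h1.trans (hmain.trans ?_)
    apply mul_le_mul_of_nonneg_right _ (by positivity)
    apply Real.exp_le_exp.2
    apply neg_le_neg
    exact mul_le_mul_of_nonneg_right (min_le_left _ _) (by linarith)
  · -- the deterministic statement
    intro S σ hσ hS hSc hSne
    by_cases hSk : j + 1 ≤ S.card
    · obtain ⟨gm, hgm, hgA⟩ := hdet S hSk (fun y hy => (hS y hy).1)
      refine ⟨gm, hgm, ?_⟩
      intro f hf
      have h1 := hgA (dset B f) σ hσ hf
      have hs : (0 : ℝ) < (((Fintype.piFinset (fun _ : Fin (j + 1) => dset B f)).image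
            (fun x : Fin (j + 1) → ℤ => ∑ i, x i)).card : ℝ) := by
        exact_mod_cast card_pos.2 ((Fintype.piFinset_nonempty.2
          (fun _ => dset_nonempty hB f)).image _)
      have hp : (0 : ℝ) < (((Fintype.piFinset (fun _ : Fin (j + 1) => dset B f)).image
            (fun x : Fin (j + 1) → ℤ => ∏ i, x i)).card : ℝ) := by
        exact_mod_cast card_pos.2 ((Fintype.piFinset_nonempty.2
          (fun _ => dset_nonempty hB f)).image _)
      rw [← Real.log_mul hs.ne' hp.ne'] at h1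
      refine hpow _ _ hBc ?_ ?_
      · have hs1 : (1 : ℝ) ≤ (((Fintype.piFinset (fun _ : Fin (j + 1) => dset B f)).image
            (fun x : Fin (j + 1) → ℤ => ∑ i, x i)).card : ℝ) := by
          exact_mod_cast Nat.succ_le_of_lt (by exact_mod_cast hs)
        have hp1 : (1 : ℝ) ≤ (((Fintype.piFinset (fun _ : Fin (j + 1) => dset B f)).image
            (fun x : Fin (j + 1) → ℤ => ∏ i, x i)).card : ℝ) := by
          exact_mod_cast Nat.succ_le_of_lt (by exact_mod_cast hp)
        nlinarith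
      · intro _
        refine le_trans ?_ h1
        have hSc0 : (0 : ℝ) < S.card := by exact_mod_cast card_pos.2 hSne
        have hBc0 : (0 : ℝ) < B.card := by linarith
        have h2 : Real.log (c1 / 2) + Real.log (B.card : ℝ) ≤ Real.log (S.card : ℝ) := by
          rw [← Real.log_mul (by positivity) hBc0.ne']
          apply Real.log_le_log (by positivity)
          linarith
        have hSB : (S.card : ℝ) ≤ (B.card : ℝ) := by
          have : S.card ≤ B.card := by
            refine card_le_card_of_injOn (fun y : ℕ => σ * (y : ℤ)) (fun y hy => (hS y hy).2) ?_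
            intro a _ b _ hab
            have := sgn_inj hσ hab
            exact_mod_cast this
          exact_mod_cast this
        have h3 : Real.log (S.card : ℝ) ≤ Real.log (B.card : ℝ) := Real.log_le_log hSc0 hSB
        have h4 : |((j : ℝ) + 2 - ε) * (Real.log (B.card : ℝ) - Real.log (S.card : ℝ))| ≤
            |(j : ℝ) + 2 - ε| * |Real.log (c1 / 2)| := by
          rw [abs_mul]
          apply mul_le_mul_of_nonneg_left _ (abs_nonneg _)
          rw [abs_of_nonneg (by linarith)]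
          have := neg_abs_le (Real.log (c1 / 2))
          linarith
        have h5 := le_abs_self (((j : ℝ) + 2 - ε) *
          (Real.log (B.card : ℝ) - Real.log (S.card : ℝ)))
        nlinarith
    · refine ⟨fun _ => 1, fun _ => ⟨le_rfl, hq⟩, ?_⟩
      intro f _
      have hs : (1 : ℝ) ≤ (((Fintype.piFinset (fun _ : Fin (j + 1) => dset B f)).image
            (fun x : Fin (j + 1) → ℤ => ∑ i, x i)).card : ℝ) := by
        exact_mod_cast card_pos.2 ((Fintype.piFinset_nonempty.2
          (fun _ => dset_nonempty hB f)).image _)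
      have hp : (1 : ℝ) ≤ (((Fintype.piFinset (fun _ : Fin (j + 1) => dset B f)).image
            (fun x : Fin (j + 1) → ℤ => ∏ i, x i)).card : ℝ) := by
        exact_mod_cast card_pos.2 ((Fintype.piFinset_nonempty.2
          (fun _ => dset_nonempty hB f)).image _)
      refine hpow _ _ hBc (by nlinarith) ?_
      intro hlarge
      exfalso
      have h1 : 2 * ((j : ℝ) + 1) / c1 ≤ (B.card : ℝ) := le_trans (le_max_right _ _) hlarge
      rw [div_le_iff₀ hc1] at h1
      have h2 : (S.card : ℝ) < (j : ℝ) + 1 := by exact_mod_cast not_le.1 hSk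
      linarith

/-- **Random bounded dilations, (2)**: sets of small multiplicative rank -/
theorem random2 (k : ℕ) (ε C0 : ℝ) (hε : 0 < ε) :
    ∃ M : ℕ, 0 < M ∧ ∃ c : ℝ, 0 < c ∧ ∀ B : Finset ℤ, B.Nonempty → (0 : ℤ) ∉ B →
      ∀ (r : ℕ) (x0 : ℚ) (x : Fin r → ℚ), (r : ℝ) ≤ C0 * Real.log B.card →
      (∀ b ∈ B, ∃ e : Fin r → ℤ, |(b : ℚ)| = x0 * ∏ i, x i ^ e i) →
      (((univ : Finset ({b // b ∈ B} → Fin M)).filter (fun f =>
        ¬ (c * (B.card : ℝ) ^ ((k : ℝ) - ε) ≤
          (((Fintype.piFinset (fun _ : Fin k => dset B f)).image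
            (fun x : Fin k → ℤ => ∑ i, x i)).card : ℝ)))).card : ℝ) ≤
        Real.exp (-(c * (B.card : ℝ))) * (M : ℝ) ^ B.card := by
  classical
  rcases Nat.eq_zero_or_pos k with hk | hk
  · subst hk
    refine ⟨1, one_pos, 1, one_pos, ?_⟩
    intro B hB h0 r x0 x _ _
    have hBc : (1 : ℝ) ≤ B.card := by exact_mod_cast card_pos.2 hB
    have hemp : ((univ : Finset ({b // b ∈ B} → Fin 1)).filter (fun f =>
        ¬ (1 * (B.card : ℝ) ^ (((0 : ℕ) : ℝ) - ε) ≤
          (((Fintype.piFinset (fun _ : Fin 0 => dset B f)).image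
            (fun x : Fin 0 → ℤ => ∑ i, x i)).card : ℝ)))) = ∅ := by
      rw [filter_eq_empty_iff]
      intro f _
      rw [not_not, one_mul]
      have h1 : (B.card : ℝ) ^ (((0 : ℕ) : ℝ) - ε) ≤ 1 := by
        rw [Nat.cast_zero, zero_sub]
        exact Real.rpow_le_one_of_one_le_of_nonpos hBc (by linarith)
      refine h1.trans ?_
      have h2 : 0 < ((Fintype.piFinset (fun _ : Fin 0 => dset B f)).image
            (fun x : Fin 0 → ℤ => ∑ i, x i)).card :=
        card_pos.2 ((Fintype.piFinset_nonempty.2 (fun _ => dset_nonempty hB f)).image _)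
      exact_mod_cast h2
    rw [hemp]
    simp only [card_empty, Nat.cast_zero]
    positivity
  obtain ⟨j, rfl⟩ : ∃ j : ℕ, k = j + 1 := ⟨k - 1, by omega⟩
  obtain ⟨D, hD0, hDC⟩ : ∃ D : ℝ, 0 < D ∧ C0 ≤ D :=
    ⟨max C0 1, lt_of_lt_of_le one_pos (le_max_right _ _), le_max_left _ _⟩
  obtain ⟨q, hq, hdet⟩ := det2 j ε D hε hD0
  obtain ⟨c1, hc1, hmost⟩ := most q hq
  obtain ⟨C, hC, hdet⟩ := hdet |Real.log (c1 / 2)| (abs_nonneg _)
  obtain ⟨c2, hc2, hpow⟩ := pow_bound ((j : ℝ) + 1 - ε) (C + |(j : ℝ) + 1 - ε| * |Real.log (c1 / 2)|)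
    (max 1 (2 * ((j : ℝ) + 1) / c1)) (le_max_left _ _)
  refine ⟨q, hq, min c1 c2, lt_min hc1 hc2, ?_⟩
  intro B hB h0 r x0 x hr hx
  have hBc : (1 : ℝ) ≤ B.card := by exact_mod_cast card_pos.2 hB
  have hLB : 0 ≤ Real.log (B.card : ℝ) := Real.log_natCast_nonneg _
  have hmain := hmost B hB h0 (fun f => c2 * (B.card : ℝ) ^ ((j : ℝ) + 1 - ε) ≤
          (((Fintype.piFinset (fun _ : Fin (j + 1) => dset B f)).image
            (fun x : Fin (j + 1) → ℤ => ∑ i, x i)).card : ℝ)) ?_
  · have h1 : (((univ : Finset ({b // b ∈ B} → Fin q)).filter (fun f =>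
        ¬ (min c1 c2 * (B.card : ℝ) ^ (((j + 1 : ℕ) : ℝ) - ε) ≤
          (((Fintype.piFinset (fun _ : Fin (j + 1) => dset B f)).image
            (fun x : Fin (j + 1) → ℤ => ∑ i, x i)).card : ℝ)))).card : ℝ) ≤
        (((univ : Finset ({b // b ∈ B} → Fin q)).filter (fun f =>
        ¬ (c2 * (B.card : ℝ) ^ ((j : ℝ) + 1 - ε) ≤
          (((Fintype.piFinset (fun _ : Fin (j + 1) => dset B f)).image
            (fun x : Fin (j + 1) → ℤ => ∑ i, x i)).card : ℝ)))).card : ℝ) := by
      apply Nat.cast_le.2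
      apply card_le_card
      intro f hf
      rw [mem_filter] at hf ⊢
      refine ⟨hf.1, fun hcon => hf.2 (le_trans ?_ hcon)⟩
      have h2 : ((j + 1 : ℕ) : ℝ) - ε = (j : ℝ) + 1 - ε := by
        push_cast
        ring
      rw [h2]
      exact mul_le_mul_of_nonneg_right (min_le_right _ _) (by positivity)
    refine h1.trans (hmain.trans ?_)
    apply mul_le_mul_of_nonneg_right _ (by positivity)
    apply Real.exp_le_exp.2
    apply neg_le_neg
    exact mul_le_mul_of_nonneg_right (min_le_left _ _) (by linarith)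
  · intro S σ hσ hS hSc hSne
    have hSc0 : (0 : ℝ) < S.card := by exact_mod_cast card_pos.2 hSne
    have hBc0 : (0 : ℝ) < B.card := by linarith
    have h2 : Real.log (c1 / 2) + Real.log (B.card : ℝ) ≤ Real.log (S.card : ℝ) := by
      rw [← Real.log_mul (by positivity) hBc0.ne']
      apply Real.log_le_log (by positivity)
      linarith
    have habs := neg_abs_le (Real.log (c1 / 2))
    by_cases hSk : j + 1 ≤ S.card
    · have hrank : (rr S : ℝ) ≤ D * (|Real.log (c1 / 2)| + Real.log (S.card : ℝ)) := by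
        have h3 : (rr S : ℝ) ≤ (r : ℝ) := by
          exact_mod_cast rank_le σ hσ B S hS r x0 x (fun b hb _ => hx b hb)
        have h4 : C0 * Real.log (B.card : ℝ) ≤ D * Real.log (B.card : ℝ) :=
          mul_le_mul_of_nonneg_right hDC hLB
        have h5 : D * Real.log (B.card : ℝ) ≤
            D * (|Real.log (c1 / 2)| + Real.log (S.card : ℝ)) :=
          mul_le_mul_of_nonneg_left (by linarith) hD0.le
        linarith
      obtain ⟨gm, hgm, hgA⟩ := hdet S hSk (fun y hy => (hS y hy).1) hrank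
      refine ⟨gm, hgm, ?_⟩
      intro f hf
      have h1 := hgA (dset B f) σ hσ hf
      have hs : 0 < ((Fintype.piFinset (fun _ : Fin (j + 1) => dset B f)).image
            (fun x : Fin (j + 1) → ℤ => ∑ i, x i)).card :=
        card_pos.2 ((Fintype.piFinset_nonempty.2 (fun _ => dset_nonempty hB f)).image _)
      refine hpow _ _ hBc (by exact_mod_cast hs) ?_
      intro _
      refine le_trans ?_ h1
      have hSB : (S.card : ℝ) ≤ (B.card : ℝ) := by
        have : S.card ≤ B.card := by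
          refine card_le_card_of_injOn (fun y : ℕ => σ * (y : ℤ)) (fun y hy => (hS y hy).2) ?_
          intro a _ b _ hab
          have := sgn_inj hσ hab
          exact_mod_cast this
        exact_mod_cast this
      have h3 : Real.log (S.card : ℝ) ≤ Real.log (B.card : ℝ) := Real.log_le_log hSc0 hSB
      have h4 : |((j : ℝ) + 1 - ε) * (Real.log (B.card : ℝ) - Real.log (S.card : ℝ))| ≤
          |(j : ℝ) + 1 - ε| * |Real.log (c1 / 2)| := by
        rw [abs_mul]
        apply mul_le_mul_of_nonneg_left _ (abs_nonneg _)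
        rw [abs_of_nonneg (by linarith)]
        linarith
      have h5 := le_abs_self (((j : ℝ) + 1 - ε) *
        (Real.log (B.card : ℝ) - Real.log (S.card : ℝ)))
      nlinarith
    · refine ⟨fun _ => 1, fun _ => ⟨le_rfl, hq⟩, ?_⟩
      intro f _
      have hs : 0 < ((Fintype.piFinset (fun _ : Fin (j + 1) => dset B f)).image
            (fun x : Fin (j + 1) → ℤ => ∑ i, x i)).card :=
        card_pos.2 ((Fintype.piFinset_nonempty.2 (fun _ => dset_nonempty hB f)).image _)
      refine hpow _ _ hBc (by exact_mod_cast hs) ?_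
      intro hlarge
      exfalso
      have h1 : 2 * ((j : ℝ) + 1) / c1 ≤ (B.card : ℝ) := le_trans (le_max_right _ _) hlarge
      rw [div_le_iff₀ hc1] at h1
      have h2 : (S.card : ℝ) < (j : ℝ) + 1 := by exact_mod_cast not_le.1 hSk
      linarith

end Pool.Agent.Helper99.MR
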