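import Pool.Agent.Helper99.MR.Det
import Pool.Agent.Helper24.MD.Final

set_option autoImplicit false

/-!
# Project MR (MP_120218): dilates from a set of pairwise coprime numbers
-/

namespace Pool.Agent.Helper99.MR

open Finset Pool.Agent.Helper24.MD

/-- the number of primes dividing a number -/
theorem omega_le (n Q : ℕ) (hn : n ≤ Q) : n.primeFactors.card ≤ Nat.log 2 Q := by
  rcases Nat.eq_zero_or_pos n with h0 | h0
  · subst h0
    simp
  · apply Nat.le_log_of_pow_le (by norm_num)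
    calc 2 ^ n.primeFactors.card = ∏ _p ∈ n.primeFactors, 2 := by rw [prod_const]
      _ ≤ ∏ p ∈ n.primeFactors, p :=
          Finset.prod_le_prod' fun p hp => (Nat.prime_of_mem_primeFactors hp).two_le
      _ ≤ n := Nat.le_of_dvd h0 (Nat.prod_primeFactors_dvd n)
      _ ≤ Q := hn

/-- the number of primes dividing differences -/
theorem badW_card (T : Finset ℕ) (Q : ℕ) (hT : ∀ g ∈ T, g ≤ Q) :
    (badW T).card ≤ T.card ^ 2 * Nat.log 2 Q := by
  unfold badW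
  refine (card_biUnion_le).trans ?_
  refine (sum_le_sum (g := fun _ => Nat.log 2 Q) fun z hz => ?_).trans ?_
  · rw [mem_product] at hz
    apply omega_le
    have h1 := hT _ hz.1
    have h2 := hT _ hz.2
    omega
  · rw [sum_const, card_product, smul_eq_mul, sq]

theorem natlog_le (Q : ℕ) (hQ : 1 ≤ Q) : ((Nat.log 2 Q : ℕ) : ℝ) ≤ Real.log (Q : ℝ) / Real.log 2 := by
  have h2 : 0 < Real.log 2 := Real.log_pos (by norm_num)
  rw [le_div_iff₀ h2, ← Real.log_pow]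
  apply Real.log_le_log (by positivity)
  exact_mod_cast Nat.pow_log_le_self 2 (by omega)

/-- dilates for given accuracy, in terms of the tree rank -/
theorem dilatesT (δ lam : ℝ) (hδ : 0 < δ) (hδ1 : δ ≤ 1) (hlam : 0 < lam) :
    ∃ m : ℕ, 2 ≤ m ∧ ∃ K : ℝ, 0 ≤ K ∧ ∀ T : Finset ℕ, T.card = m →
      (∀ g ∈ T, ∀ g' ∈ T, g ≠ g' → Nat.Coprime g g') → ∀ Q : ℕ, 1 ≤ Q → (∀ g ∈ T, g ≤ Q) →
      ∀ S : Finset ℕ, S.Nonempty → (∀ y ∈ S, 0 < y) →
      ∀ X : Finset ℤ, X.Nonempty → ∃ g ∈ T,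
        Real.log (X.card : ℝ) + Real.log (S.card : ℝ) - δ * Real.log (X.card : ℝ) -
          δ * Real.log (S.card : ℝ) - lam * (rr S : ℝ) - K * Real.log (Q : ℝ) ≤
            Real.log ((sm g X S).card : ℝ) := by
  obtain ⟨m, hm, K, hK, hprop⟩ := propS δ lam hδ hδ1 hlam
  have h2 : 0 < Real.log 2 := Real.log_pos (by norm_num)
  refine ⟨m, hm, K * ((m : ℝ) ^ 2 / Real.log 2), by positivity, ?_⟩
  intro T hTm hTc Q hQ hTQ S hS hpos X hX
  have hTne : T.Nonempty := card_pos.1 (by omega)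
  obtain ⟨g, hg, hgb⟩ := pick T hTne X S _ (hprop T hTm.ge hTc _ (badW_spec T) S hS hpos X hX)
  refine ⟨g, hg, le_trans ?_ hgb⟩
  unfold Bd
  have hq : (qq (badW T) S : ℝ) ≤ (m : ℝ) ^ 2 / Real.log 2 * Real.log (Q : ℝ) := by
    have h0 : qq (badW T) S ≤ (badW T).card := by
      classical
      exact Finset.card_le_card (Finset.filter_subset _ _)
    have h1 : ((badW T).card : ℝ) ≤ (m : ℝ) ^ 2 * ((Nat.log 2 Q : ℕ) : ℝ) := by
      have := badW_card T Q hTQ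
      rw [hTm] at this
      exact_mod_cast this
    have h3 : (m : ℝ) ^ 2 * ((Nat.log 2 Q : ℕ) : ℝ) ≤ (m : ℝ) ^ 2 * (Real.log (Q : ℝ) / Real.log 2) :=
      mul_le_mul_of_nonneg_left (natlog_le Q hQ) (by positivity)
    have h4 : (qq (badW T) S : ℝ) ≤ ((badW T).card : ℝ) := by exact_mod_cast h0
    calc (qq (badW T) S : ℝ) ≤ (m : ℝ) ^ 2 * (Real.log (Q : ℝ) / Real.log 2) :=
          h4.trans (h1.trans h3)
      _ = _ := by ring
  have := mul_le_mul_of_nonneg_left hq hK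
  have e : K * ((m : ℝ) ^ 2 / Real.log 2) * Real.log (Q : ℝ) =
      K * ((m : ℝ) ^ 2 / Real.log 2 * Real.log (Q : ℝ)) := by ring
  linarith

/-- one dilate of the block `Y` for every set `X`, from `T` -/
def StpT (T : Finset ℕ) (δ C : ℝ) (Y : Finset ℕ) (ρ : ℝ) : Prop :=
  ∀ X : Finset ℤ, X.Nonempty → ∃ g ∈ T,
    Real.log (X.card : ℝ) + Real.log (Y.card : ℝ) - ρ - δ * Real.log (X.card : ℝ) -
      2 * δ * Real.log (Y.card : ℝ) - C ≤ Real.log ((sm g X Y).card : ℝ)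

/-- every set of positive integers has a `ρ` with both properties -/
theorem blockT_ex (δ : ℝ) (hδ : 0 < δ) (hδ1 : δ ≤ 1 / 2) :
    ∃ m : ℕ, 2 ≤ m ∧ ∃ K : ℝ, 0 ≤ K ∧ ∀ T : Finset ℕ, T.card = m →
      (∀ g ∈ T, ∀ g' ∈ T, g ≠ g' → Nat.Coprime g g') → ∀ Q : ℕ, 1 ≤ Q → (∀ g ∈ T, g ≤ Q) →
      ∀ Y : Finset ℕ, Y.Nonempty → (∀ y ∈ Y, 0 < y) →
      ∃ ρ : ℝ, 0 ≤ ρ ∧ ρ ≤ Real.log (Y.card : ℝ) ∧ Pr δ Y ρ ∧
        StpT T δ (2 * Real.log 2 + K * Real.log (Q : ℝ)) Y ρ := by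
  obtain ⟨lam, hlam, hsplit⟩ := split δ δ hδ (by linarith) hδ (by linarith)
  obtain ⟨m, hm, K, hK, hdil⟩ := dilatesT (δ / 2) (δ * lam / 2) (by positivity) (by linarith)
    (by positivity)
  have hl2 : 0 ≤ Real.log 2 := Real.log_nonneg (by norm_num)
  refine ⟨m, hm, K, hK, ?_⟩
  intro T hTm hTc Q hQ hTQ Y hY hpos
  have hL : 0 ≤ Real.log (Y.card : ℝ) := Real.log_natCast_nonneg _
  obtain ⟨ρ, hρ0, hρ1, S, hSY, hSne, hP, hWt⟩ := hsplit Y hY hpos
  obtain ⟨S', hS'S, hS'ne, hS'card, hS'r⟩ :=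
    small_branch lam δ ρ hlam (by linarith) Y S hY hSY hρ1 hWt
  refine ⟨ρ, hρ0, hρ1, hP, ?_⟩
  intro X hX
  obtain ⟨g, hg, hgb⟩ := hdil T hTm hTc Q hQ hTQ S' hS'ne (fun y hy => hpos y (hSY (hS'S hy))) X hX
  refine ⟨g, hg, ?_⟩
  have h5 : Real.log ((sm g X S').card : ℝ) ≤ Real.log ((sm g X Y).card : ℝ) := by
    have h6 : (sm g X S').Nonempty := hX.image₂ hS'ne
    have h7 : sm g X S' ⊆ sm g X Y := by
      unfold sm
      exact image₂_subset_left (hS'S.trans hSY)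
    apply Real.log_le_log
    · exact_mod_cast card_pos.2 h6
    · exact_mod_cast card_le_card h7
  refine le_trans ?_ (hgb.trans h5)
  have hX0 : 0 ≤ Real.log (X.card : ℝ) := Real.log_natCast_nonneg _
  have hS'Y : Real.log (S'.card : ℝ) ≤ Real.log (Y.card : ℝ) := by
    apply Real.log_le_log
    · exact_mod_cast Finset.card_pos.2 hS'ne
    · exact_mod_cast Finset.card_le_card (hS'S.trans hSY)
  have h1 : δ * lam / 2 * (rr S' : ℝ) ≤ δ / 2 * (Real.log 2 + Real.log (Y.card : ℝ)) := by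
    have h2 : δ * lam / 2 * (rr S' : ℝ) ≤
        δ * lam / 2 * ((Real.log 2 + Real.log (Y.card : ℝ)) / lam) :=
      mul_le_mul_of_nonneg_left hS'r (by positivity)
    have h3 : δ * lam / 2 * ((Real.log 2 + Real.log (Y.card : ℝ)) / lam) =
        δ / 2 * (Real.log 2 + Real.log (Y.card : ℝ)) := by field_simp
    linarith
  have h8 : 0 ≤ δ * ρ := by positivity
  have h9 : 0 ≤ δ * Real.log (X.card : ℝ) := by positivity
  have h10 : δ / 2 * Real.log (S'.card : ℝ) ≤ δ / 2 * Real.log (Y.card : ℝ) :=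
    mul_le_mul_of_nonneg_left hS'Y (by positivity)
  have h11 : δ / 2 * Real.log 2 ≤ Real.log 2 := by nlinarith
  have h12 : (1 - δ) * (Real.log (Y.card : ℝ) - ρ) =
      Real.log (Y.card : ℝ) - ρ - δ * Real.log (Y.card : ℝ) + δ * ρ := by ring
  rw [h12] at hS'card
  have h13 : δ / 2 * (Real.log 2 + Real.log (Y.card : ℝ)) =
      δ / 2 * Real.log 2 + δ / 2 * Real.log (Y.card : ℝ) := by ring
  rw [h13] at h1
  have h14 : δ / 2 * Real.log (X.card : ℝ) = δ * Real.log (X.card : ℝ) / 2 := by ring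
  have h15 : δ / 2 * Real.log (Y.card : ℝ) = δ * Real.log (Y.card : ℝ) / 2 := by ring
  have h16 : 2 * δ * Real.log (Y.card : ℝ) = 2 * (δ * Real.log (Y.card : ℝ)) := by ring
  linarith

theorem chainT (T : Finset ℕ) (δ C L : ℝ) (hδ : 0 ≤ δ) (hL : 0 ≤ L) (g0 : ℕ) (hg0T : g0 ∈ T)
    (hg0p : 1 ≤ g0) (k : ℕ) :
    ∀ (Y : Fin (k + 1) → Finset ℕ) (ρ : Fin (k + 1) → ℝ), (∀ i, (Y i).Nonempty) →
    (∀ i, Real.log ((Y i).card : ℝ) = L) → (∀ i, StpT T δ C (Y i) (ρ i)) →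
    ∃ g : Fin (k + 1) → ℕ, (∀ i, g i ∈ T) ∧ (csum g Y).Nonempty ∧
      Real.log ((csum g Y).card : ℝ) ≤ ((k : ℝ) + 1) * L ∧
      ((k : ℝ) + 1) * L - ∑ i : Fin k, ρ i.succ - k * (((k : ℝ) + 3) * δ * L + C) ≤
        Real.log ((csum g Y).card : ℝ) := by
  classical
  induction k with
  | zero =>
    intro Y ρ hY hYL _
    refine ⟨fun _ => g0, fun _ => hg0T, ?_, ?_, ?_⟩
    · exact (Fintype.piFinset_nonempty.2 hY).image _
    all_goals
      have hcard : (csum (fun _ : Fin (0 + 1) => g0) Y).card = (Y 0).card := by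
        unfold csum
        apply le_antisymm
        · refine le_trans card_image_le ?_
          rw [Fintype.card_piFinset]
          simp
        · refine card_le_card_of_injOn (fun y : ℕ => (g0 : ℤ) * (y : ℤ)) ?_ ?_
          · intro y hy
            rw [mem_coe]
            refine mem_image.2 ⟨fun _ => y, ?_, ?_⟩
            · rw [Fintype.mem_piFinset]
              intro i
              have : i = 0 := Fin.ext (by omega)
              rw [this]
              exact hy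
            · simp
          · intro a _ b _ hab
            have h0 : (g0 : ℤ) ≠ 0 := by exact_mod_cast (by omega : g0 ≠ 0)
            have hab' : (g0 : ℤ) * (a : ℤ) = (g0 : ℤ) * (b : ℤ) := hab
            exact_mod_cast mul_left_cancel₀ h0 hab'
      rw [hcard, hYL 0]
      simp
  | succ k ih =>
    intro Y ρ hY hYL hS
    obtain ⟨g, hg, hne, hu, hl⟩ := ih (fun i => Y i.castSucc) (fun i => ρ i.castSucc)
      (fun i => hY _) (fun i => hYL _) (fun i => hS _)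
    obtain ⟨g1, hg1, hg0⟩ := hS (Fin.last (k + 1)) _ hne
    rw [hYL] at hg0
    have hsub : sm g1 (csum g (fun i => Y i.castSucc)) (Y (Fin.last (k + 1))) ⊆
        csum (Fin.snoc g g1 : Fin (k + 1 + 1) → ℕ) Y := by
      intro z hz
      unfold sm at hz
      obtain ⟨x, hx, y, hy, rfl⟩ := mem_image₂.1 hz
      unfold csum at hx
      obtain ⟨f, hf, rfl⟩ := mem_image.1 hx
      unfold csum
      refine mem_image.2 ⟨Fin.snoc f y, ?_, ?_⟩
      · rw [Fintype.mem_piFinset] at hf ⊢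
        intro i
        refine Fin.lastCases ?_ (fun j => ?_) i
        · rw [Fin.snoc_last]; exact hy
        · rw [Fin.snoc_castSucc]; exact hf j
      · rw [Fin.sum_univ_castSucc]
        simp only [Fin.snoc_castSucc, Fin.snoc_last]
    have hne2 : (sm g1 (csum g (fun i => Y i.castSucc)) (Y (Fin.last (k + 1)))).Nonempty :=
      hne.image₂ (hY _)
    have hcs : (csum (Fin.snoc g g1 : Fin (k + 1 + 1) → ℕ) Y).Nonempty := hne2.mono hsub
    refine ⟨Fin.snoc g g1, ?_, hcs, ?_, ?_⟩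
    · intro i
      refine Fin.lastCases ?_ (fun j => ?_) i
      · rw [Fin.snoc_last]; exact hg1
      · rw [Fin.snoc_castSucc]; exact hg j
    · have h1 : (csum (Fin.snoc g g1 : Fin (k + 1 + 1) → ℕ) Y).card ≤ ∏ i, (Y i).card := by
        unfold csum
        refine le_trans card_image_le ?_
        rw [Fintype.card_piFinset]
      have h2 : Real.log ((csum (Fin.snoc g g1 : Fin (k + 1 + 1) → ℕ) Y).card : ℝ) ≤
          Real.log ((∏ i, (Y i).card : ℕ) : ℝ) := by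
        apply Real.log_le_log
        · exact_mod_cast card_pos.2 hcs
        · exact_mod_cast h1
      have h3 : Real.log ((∏ i, (Y i).card : ℕ) : ℝ) = ∑ i, Real.log ((Y i).card : ℝ) := by
        push_cast
        rw [Real.log_prod]
        intro i _
        have := card_pos.2 (hY i)
        positivity
      rw [h3, sum_congr rfl fun i _ => hYL i] at h2
      simp only [sum_const, card_univ, Fintype.card_fin, nsmul_eq_mul] at h2
      push_cast at h2 ⊢
      exact h2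
    · have h4 : Real.log ((sm g1 (csum g (fun i => Y i.castSucc))
          (Y (Fin.last (k + 1)))).card : ℝ) ≤
          Real.log ((csum (Fin.snoc g g1 : Fin (k + 1 + 1) → ℕ) Y).card : ℝ) := by
        apply Real.log_le_log
        · exact_mod_cast card_pos.2 hne2
        · exact_mod_cast card_le_card hsub
      refine le_trans ?_ h4
      refine le_trans ?_ hg0
      rw [Fin.sum_univ_castSucc]
      simp only [Fin.succ_last, Fin.succ_castSucc] at hl ⊢
      have h5 : δ * Real.log ((csum g (fun i => Y i.castSucc)).card : ℝ) ≤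
          δ * (((k : ℝ) + 1) * L) := mul_le_mul_of_nonneg_left hu hδ
      have h6 : 0 ≤ k * (δ * L) := mul_nonneg (Nat.cast_nonneg _) (mul_nonneg hδ hL)
      push_cast
      nlinarith

/-- an assignment of dilates from the dilates of the blocks -/
theorem assignT (K : ℕ) (T : Finset ℕ) (g0 : ℕ) (hg0 : g0 ∈ T) (Y : Fin K → Finset ℕ)
    (hY : ∀ i j, i ≠ j → Disjoint (Y i) (Y j)) (g : Fin K → ℕ) (hg : ∀ i, g i ∈ T) :
    ∃ gm : ℕ → ℕ, (∀ y, gm y ∈ T) ∧ ∀ i, ∀ y ∈ Y i, gm y = g i := by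
  classical
  refine ⟨fun y => if h : ∃ i, y ∈ Y i then g h.choose else g0, ?_, ?_⟩
  · intro y
    by_cases h : ∃ i, y ∈ Y i
    · simp only [dif_pos h]
      exact hg _
    · simp only [dif_neg h]
      exact hg0
  · intro i y hy
    have h : ∃ i, y ∈ Y i := ⟨i, hy⟩
    simp only [dif_pos h]
    by_contra hne
    have h1 : h.choose ≠ i := by
      intro h2
      rw [h2] at hne
      exact hne rfl
    exact (Finset.disjoint_left.1 (hY _ _ h1)) h.choose_spec hy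

/-- one assignment of dilates from `T` -/
theorem det1T (k : ℕ) (ε : ℝ) (hε : 0 < ε) : ∃ m : ℕ, 2 ≤ m ∧ ∃ K C : ℝ, 0 ≤ K ∧ 0 ≤ C ∧
    ∀ T : Finset ℕ, T.card = m → (∀ g ∈ T, ∀ g' ∈ T, g ≠ g' → Nat.Coprime g g') →
      (∀ g ∈ T, 1 ≤ g) → ∀ Q : ℕ, (∀ g ∈ T, g ≤ Q) →
    ∀ S : Finset ℕ, k + 1 ≤ S.card → (∀ y ∈ S, 0 < y) →
      ∃ gm : ℕ → ℕ, (∀ y, gm y ∈ T) ∧
      ∀ (A : Finset ℤ) (σ : ℤ), (σ = 1 ∨ σ = -1) →
        (∀ y ∈ S, σ * ((gm y : ℤ) * (y : ℤ)) ∈ A) →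
        ((k : ℝ) + 2 - ε) * Real.log (S.card : ℝ) - C - K * Real.log (Q : ℝ) ≤
          Real.log ((((Fintype.piFinset (fun _ : Fin (k + 1) => A)).image
            (fun f : Fin (k + 1) → ℤ => ∑ i, f i)).card : ℕ) : ℝ) +
          Real.log ((((Fintype.piFinset (fun _ : Fin (k + 1) => A)).image
            (fun f : Fin (k + 1) → ℤ => ∏ i, f i)).card : ℕ) : ℝ) := by
  classical
  obtain ⟨e, he⟩ : ∃ e : ℝ, e = min ε 1 := ⟨_, rfl⟩
  have he0 : 0 < e := by rw [he]; exact lt_min hε one_pos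
  have he1 : e ≤ 1 := by rw [he]; exact min_le_right _ _
  have hee : e ≤ ε := by rw [he]; exact min_le_left _ _
  obtain ⟨κ, hκd⟩ : ∃ κ : ℝ, κ = (k : ℝ) := ⟨_, rfl⟩
  have hκ0 : 0 ≤ κ := by rw [hκd]; exact Nat.cast_nonneg _
  obtain ⟨δ, hδd, hδ0, hδ1⟩ : ∃ δ : ℝ, δ * (4 * (κ + 2) ^ 2) = e ∧ 0 < δ ∧ δ ≤ 1 / 2 := by
    refine ⟨e / (4 * (κ + 2) ^ 2), by field_simp, by positivity, ?_⟩
    rw [div_le_iff₀ (by positivity)]
    nlinarith
  obtain ⟨m, hm, K, hK, hblock⟩ := blockT_ex δ hδ0 hδ1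
  have hl2k : 0 ≤ Real.log (2 * (κ + 1)) := Real.log_nonneg (by linarith)
  have hl2 : 0 ≤ Real.log 2 := Real.log_nonneg (by norm_num)
  refine ⟨m, hm, κ * K + (κ + 1), (κ + 2) * Real.log (2 * (κ + 1)) + κ * (2 * Real.log 2),
    by positivity, by positivity, ?_⟩
  intro T hTm hTc hT1 Q hTQ S hS hpos
  obtain ⟨g0, hg0⟩ : T.Nonempty := card_pos.1 (by omega)
  have hQ : 1 ≤ Q := (hT1 g0 hg0).trans (hTQ g0 hg0)
  have hlq : 0 ≤ Real.log (Q : ℝ) := Real.log_natCast_nonneg _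
  obtain ⟨n, hn1, hn2, hnlog⟩ := block_log k S hS
  obtain ⟨Y, hYS, hYc, hYd⟩ := blocks_ex (k + 1) n S hn2
  have hYne : ∀ i, (Y i).Nonempty := fun i => card_pos.1 (by rw [hYc i]; omega)
  have hYpos : ∀ i, ∀ y ∈ Y i, 0 < y := fun i y hy => hpos y (hYS i hy)
  choose ρ hρ0 hρ1 hρP hρS using fun i => hblock T hTm hTc Q hQ hTQ (Y i) (hYne i) (hYpos i)
  have hL : 0 ≤ Real.log (n : ℝ) := Real.log_natCast_nonneg _
  obtain ⟨g, hg, -, -, hsum⟩ := chainT T δ (2 * Real.log 2 + K * Real.log (Q : ℝ))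
    (Real.log (n : ℝ)) hδ0.le hL g0 hg0 (hT1 g0 hg0) k Y ρ hYne
    (fun i => by rw [hYc i]) hρS
  obtain ⟨-, -, hprod⟩ := chain_prod δ hδ0.le (by linarith) k Y ρ hYne hYpos hρ0 hρP
  obtain ⟨gm, hgm1, hgm2⟩ := assignT (k + 1) T g0 hg0 Y hYd g hg
  refine ⟨gm, hgm1, ?_⟩
  intro A σ hσ hA
  have h1 := sum_transfer (k + 1) Y hYne g A σ hσ (fun i y hy => by
    have := hA y (hYS i hy)
    rwa [hgm2 i y hy] at this)
  have h2 := prod_transfer (k + 1) Q hQ Y hYne A σ hσ (fun i y hy =>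
    ⟨gm y, hT1 _ (hgm1 y), hTQ _ (hgm1 y), hA y (hYS i hy)⟩)
  rw [hYc 0] at hprod
  have hρsum : ∑ i : Fin k, ρ i.succ ≤ κ * Real.log (n : ℝ) := by
    have h3 : ∑ i : Fin k, ρ i.succ ≤ ∑ _i : Fin k, Real.log (n : ℝ) := by
      refine sum_le_sum fun i _ => ?_
      have := hρ1 i.succ
      rwa [hYc] at this
    rw [sum_const, card_univ, Fintype.card_fin, nsmul_eq_mul, ← hκd] at h3
    exact h3
  have hρsum0 : 0 ≤ ∑ i : Fin k, ρ i.succ := sum_nonneg fun i _ => hρ0 _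
  rw [← hκd] at hsum hprod hnlog ⊢
  push_cast at h2
  rw [← hκd] at h2
  generalize ∑ i : Fin k, ρ i.succ = s at *
  generalize Real.log (n : ℝ) = L at *
  generalize Real.log (Q : ℝ) = lq at *
  generalize Real.log (2 * (κ + 1)) = l2 at *
  generalize Real.log 2 = ll at *
  have hS0 : 0 ≤ Real.log (S.card : ℝ) := Real.log_natCast_nonneg _
  generalize Real.log (S.card : ℝ) = LS at *
  -- the arithmetic
  have d1 : (κ + 2 - ε) * LS ≤ (κ + 2 - e) * LS := mul_le_mul_of_nonneg_right (by linarith) hS0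
  have d2 : (κ + 2 - e) * LS ≤ (κ + 2 - e) * (l2 + L) :=
    mul_le_mul_of_nonneg_left hnlog (by linarith)
  have d3 : (κ + 2 - e) * (l2 + L) = (κ + 2) * l2 - e * l2 + (κ + 2) * L - e * L := by ring
  have d4 : 0 ≤ e * l2 := by positivity
  have d5 : (1 - (κ + 1) * δ) * (L + s) = L + s - (κ + 1) * δ * (L + s) := by ring
  have d6 : (κ + 1) * δ * (L + s) ≤ (κ + 1) * δ * ((κ + 1) * L) :=
    mul_le_mul_of_nonneg_left (by linarith) (by positivity)
  have d7 : (κ + 1) * δ * ((κ + 1) * L) + κ * ((κ + 3) * δ * L) ≤ e * L := by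
    have h5 : (κ + 1) * δ * ((κ + 1) * L) + κ * ((κ + 3) * δ * L) =
        (δ * L) * ((κ + 1) ^ 2 + κ * (κ + 3)) := by ring
    have h6 : (δ * L) * ((κ + 1) ^ 2 + κ * (κ + 3)) ≤ (δ * L) * (4 * (κ + 2) ^ 2) :=
      mul_le_mul_of_nonneg_left (by nlinarith) (by positivity)
    have h7 : (δ * L) * (4 * (κ + 2) ^ 2) = e * L := by rw [← hδd]; ring
    linarith
  have d8 : κ * ((κ + 3) * δ * L + (2 * ll + K * lq)) =
      κ * ((κ + 3) * δ * L) + κ * (2 * ll) + κ * K * lq := by ring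
  have d9 : (κ + 2) * L = (κ + 1) * L + L := by ring
  have d10 : (κ * K + (κ + 1)) * lq = κ * K * lq + (κ + 1) * lq := by ring
  linarith

end Pool.Agent.Helper99.MR
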