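import Pool.Agent.Helper24.MD.EndN
import Pool.Agent.Helper88.ME.Cor

set_option autoImplicit false

/-!
# Project MR (MP_120218): random bounded dilations

`Pr δ Y ρ`: products with `Y` gain `ρ`.  `Good q δ C Y ρ`: every large part of `Y` has a part `S` of size about
`|Y| e^(-ρ)` such that every set `X` has a dilate `g S`, `g ≤ q`, with `|X + g S|` about `|X||S|`.
-/

namespace Pool.Agent.Helper99.MR

open Finset Pool.Agent.Helper24.MD

/-- products with `Y` gain `ρ` -/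
def Pr (δ : ℝ) (Y : Finset ℕ) (ρ : ℝ) : Prop :=
  ∀ B : Finset ℕ, B.Nonempty → (∀ b ∈ B, 0 < b) →
    (1 - δ) * (Real.log (B.card : ℝ) + ρ) ≤
      Real.log ((Finset.image₂ (fun x y : ℕ => x * y) B Y).card : ℝ)

/-- sums with parts of `Y` -/
def Good (q : ℕ) (δ C : ℝ) (Y : Finset ℕ) (ρ : ℝ) : Prop :=
  ∀ Y' ⊆ Y, Y.card ≤ 2 * Y'.card → ∃ S ⊆ Y', S.Nonempty ∧
    Real.log (Y.card : ℝ) - ρ - δ * Real.log (Y.card : ℝ) - C ≤ Real.log (S.card : ℝ) ∧
    ∀ X : Finset ℤ, X.Nonempty → ∃ g : ℕ, 1 ≤ g ∧ g ≤ q ∧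
      Real.log (X.card : ℝ) + Real.log (S.card : ℝ) - δ * Real.log (X.card : ℝ) -
        δ * Real.log (Y.card : ℝ) - C ≤ Real.log ((sm g X S).card : ℝ)

theorem pr_mono {δ ρ : ℝ} {Y Z : Finset ℕ} (hZ : Z ⊆ Y) (hZn : Z.Nonempty) (h : Pr δ Z ρ) :
    Pr δ Y ρ := by
  intro B hB hBpos
  refine le_trans (h B hB hBpos) ?_
  apply Real.log_le_log
  · exact_mod_cast Finset.card_pos.2 (hB.image₂ hZn)
  · exact_mod_cast Finset.card_le_card (Finset.image₂_subset_left hZ)

theorem pr_zero {δ : ℝ} (hδ : 0 ≤ δ) {Y : Finset ℕ} (hY : Y.Nonempty) (hpos : ∀ y ∈ Y, 0 < y) :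
    Pr δ Y 0 := by
  intro B hB hBpos
  have hB1 : 0 ≤ Real.log (B.card : ℝ) := Real.log_natCast_nonneg _
  have h1 : B.card ≤ (Finset.image₂ (fun x y : ℕ => x * y) B Y).card := by
    obtain ⟨y, hy⟩ := hY
    refine Finset.card_le_card_of_injOn (fun x => x * y) ?_ ?_
    · intro x hx
      exact Finset.mem_image₂_of_mem hx hy
    · intro a _ b _ hab
      exact Nat.eq_of_mul_eq_mul_right (hpos y hy) hab
  have h2 : Real.log (B.card : ℝ) ≤
      Real.log ((Finset.image₂ (fun x y : ℕ => x * y) B Y).card : ℝ) := by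
    apply Real.log_le_log
    · exact_mod_cast Finset.card_pos.2 hB
    · exact_mod_cast h1
  rw [add_zero]
  nlinarith

/-- one large dilate sum from the average -/
theorem pick (G : Finset ℕ) (hG : G.Nonempty) (X : Finset ℤ) (S : Finset ℕ) (b : ℝ)
    (h : av G (fun g => dd g X S) ≤ b) :
    ∃ g ∈ G, Real.log (X.card : ℝ) + Real.log (S.card : ℝ) - b ≤
      Real.log ((sm g X S).card : ℝ) := by
  obtain ⟨g, hg, hgb⟩ := kf_min G hG _ _ h
  refine ⟨g, hg, ?_⟩
  unfold dd at hgb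
  linarith

/-- dilates for given accuracy, in terms of the tree rank -/
theorem dilates_pos (δ lam : ℝ) (hδ : 0 < δ) (hδ1 : δ ≤ 1) (hlam : 0 < lam) :
    ∃ q : ℕ, ∃ C : ℝ, 0 ≤ C ∧ 1 ≤ q ∧ ∀ S : Finset ℕ, S.Nonempty → (∀ y ∈ S, 0 < y) →
      ∀ X : Finset ℤ, X.Nonempty → ∃ g : ℕ, 1 ≤ g ∧ g ≤ q ∧
        Real.log (X.card : ℝ) + Real.log (S.card : ℝ) - δ * Real.log (X.card : ℝ) -
          δ * Real.log (S.card : ℝ) - lam * (rr S : ℝ) - C ≤ Real.log ((sm g X S).card : ℝ) := by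
  obtain ⟨m, hm, K, hK, hprop⟩ := propS δ lam hδ hδ1 hlam
  obtain ⟨G, hGm, hGc, hGW⟩ := Pool.Agent.Helper88.ME.exists_G m
  have hGm2 : 2 ≤ G.card := le_trans hm hGm
  have hGne : G.Nonempty := Finset.card_pos.1 (by omega)
  -- zero is harmless: at most one element of `G` is zero; replace it by the average over the rest
  by_cases h0 : (0 : ℕ) ∈ G
  · -- `gcd 0 g = g`, so all other elements are `1`: at most two elements
    have hsub : G ⊆ {0, 1} := by
      intro g hg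
      rw [Finset.mem_insert, Finset.mem_singleton]
      by_cases hg0 : g = 0
      · exact Or.inl hg0
      · right
        have := hGc 0 h0 g hg (Ne.symm hg0)
        simpa using this
    have hsub' : ({0, 1} : Finset ℕ) = {0, 1} := rfl
    -- then `m ≤ 2`, take another set
    obtain ⟨G', hG'm, hG'c, hG'W⟩ := Pool.Agent.Helper88.ME.exists_G (max m 3)
    have hm3 : m ≤ G'.card := le_trans (le_max_left _ _) hG'm
    have h3 : 3 ≤ G'.card := le_trans (le_max_right _ _) hG'm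
    have hG'ne : G'.Nonempty := Finset.card_pos.1 (by omega)
    have h0' : ∀ g ∈ G', 1 ≤ g := by
      intro g hg
      by_contra hcon
      have hg0 : g = 0 := by omega
      subst hg0
      have hsub2 : G' ⊆ {0, 1} := by
        intro g hg'
        rw [Finset.mem_insert, Finset.mem_singleton]
        by_cases hgz : g = 0
        · exact Or.inl hgz
        · right
          have := hG'c 0 hg g hg' (Ne.symm hgz)
          simpa using this
      have := Finset.card_le_card hsub2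
      have h5 : ({0, 1} : Finset ℕ).card = 2 := by decide
      omega
    refine ⟨max 1 (G'.sup id), K * ((G'.sup id + 1 : ℕ) : ℝ), by positivity, le_max_left _ _, ?_⟩
    intro S hS hpos X hX
    obtain ⟨g, hg, hgb⟩ := pick G' hG'ne X S _ (hprop G' hm3 hG'c _ hG'W S hS hpos X hX)
    refine ⟨g, h0' g hg, le_max_of_le_right (Finset.le_sup (f := id) hg), ?_⟩
    refine le_trans ?_ hgb
    unfold Bd
    have hq : (qq (Finset.range (G'.sup id + 1)) S : ℝ) ≤ ((G'.sup id + 1 : ℕ) : ℝ) := by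
      have h0 : qq (Finset.range (G'.sup id + 1)) S ≤ (Finset.range (G'.sup id + 1)).card := by
        classical
        exact Finset.card_le_card (Finset.filter_subset _ _)
      rw [Finset.card_range] at h0
      exact_mod_cast h0
    have := mul_le_mul_of_nonneg_left hq hK
    linarith
  · have h0' : ∀ g ∈ G, 1 ≤ g := by
      intro g hg
      by_contra hcon
      have hg0 : g = 0 := by omega
      exact h0 (hg0 ▸ hg)
    refine ⟨max 1 (G.sup id), K * ((G.sup id + 1 : ℕ) : ℝ), by positivity, le_max_left _ _, ?_⟩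
    intro S hS hpos X hX
    obtain ⟨g, hg, hgb⟩ := pick G hGne X S _ (hprop G hGm hGc _ hGW S hS hpos X hX)
    refine ⟨g, h0' g hg, le_max_of_le_right (Finset.le_sup (f := id) hg), ?_⟩
    refine le_trans ?_ hgb
    unfold Bd
    have hq : (qq (Finset.range (G.sup id + 1)) S : ℝ) ≤ ((G.sup id + 1 : ℕ) : ℝ) := by
      have h0 : qq (Finset.range (G.sup id + 1)) S ≤ (Finset.range (G.sup id + 1)).card := by
        classical
        exact Finset.card_le_card (Finset.filter_subset _ _)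
      rw [Finset.card_range] at h0
      exact_mod_cast h0
    have := mul_le_mul_of_nonneg_left hq hK
    linarith

/-- every set of positive integers has a `ρ` with both properties -/
theorem good_ex (δ : ℝ) (hδ : 0 < δ) (hδ1 : δ ≤ 1 / 2) :
    ∃ q : ℕ, ∃ C : ℝ, 0 ≤ C ∧ 1 ≤ q ∧ ∀ Y : Finset ℕ, Y.Nonempty → (∀ y ∈ Y, 0 < y) →
      ∃ ρ : ℝ, 0 ≤ ρ ∧ ρ ≤ Real.log (Y.card : ℝ) ∧ Pr δ Y ρ ∧ Good q δ C Y ρ := by
  obtain ⟨lam, hlam, hsplit⟩ := split δ δ hδ (by linarith) hδ (by linarith)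
  obtain ⟨q, C, hC, hq, hdil⟩ := dilates_pos (δ / 2) (δ * lam / 2) (by positivity) (by linarith)
    (by positivity)
  have hl2 : 0 ≤ Real.log 2 := Real.log_nonneg (by norm_num)
  refine ⟨q, C + 2 * Real.log 2, by positivity, hq, ?_⟩
  intro Y hY hpos
  obtain ⟨A, hA⟩ : ∃ A : Set ℝ, A = {ρ : ℝ | 0 ≤ ρ ∧ ρ ≤ Real.log (Y.card : ℝ) ∧ Pr δ Y ρ} :=
    ⟨_, rfl⟩
  have hL : 0 ≤ Real.log (Y.card : ℝ) := Real.log_natCast_nonneg _
  have h0A : (0 : ℝ) ∈ A := by
    rw [hA]
    exact ⟨le_rfl, hL, pr_zero hδ.le hY hpos⟩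
  have hbdd : BddAbove A := by
    refine ⟨Real.log (Y.card : ℝ), ?_⟩
    intro ρ hρ
    rw [hA] at hρ
    exact hρ.2.1
  refine ⟨sSup A, le_csSup hbdd h0A, ?_, ?_, ?_⟩
  · apply csSup_le ⟨0, h0A⟩
    intro ρ hρ
    rw [hA] at hρ
    exact hρ.2.1
  · intro B hB hBpos
    have h1 : (0 : ℝ) < 1 - δ := by linarith
    have h2 : sSup A ≤ Real.log ((Finset.image₂ (fun x y : ℕ => x * y) B Y).card : ℝ) / (1 - δ) -
        Real.log (B.card : ℝ) := by
      apply csSup_le ⟨0, h0A⟩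
      intro ρ hρ
      rw [hA] at hρ
      have h3 := hρ.2.2 B hB hBpos
      rw [le_sub_iff_add_le, le_div_iff₀ h1]
      linarith
    have h3 : (1 - δ) * (Real.log (B.card : ℝ) + sSup A) ≤ (1 - δ) *
        (Real.log ((Finset.image₂ (fun x y : ℕ => x * y) B Y).card : ℝ) / (1 - δ)) :=
      mul_le_mul_of_nonneg_left (by linarith) h1.le
    rwa [mul_div_cancel₀ _ h1.ne'] at h3
  · intro Y' hY'Y hcard
    have hY'ne : Y'.Nonempty := by
      rw [← Finset.card_pos]
      have := Finset.card_pos.2 hY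
      omega
    have hY'pos : ∀ y ∈ Y', 0 < y := fun y hy => hpos y (hY'Y hy)
    obtain ⟨ρ, hρ0, hρ1, S, hSY, hSne, hP, hWt⟩ := hsplit Y' hY'ne hY'pos
    obtain ⟨S', hS'S, hS'ne, hS'card, hS'r⟩ :=
      small_branch lam δ ρ hlam (by linarith) Y' S hY'ne hSY hρ1 hWt
    have hY'c : (0 : ℝ) < (Y'.card : ℝ) := by exact_mod_cast Finset.card_pos.2 hY'ne
    have hYc : (0 : ℝ) < (Y.card : ℝ) := by exact_mod_cast Finset.card_pos.2 hY
    have hlog1 : Real.log (Y.card : ℝ) ≤ Real.log 2 + Real.log (Y'.card : ℝ) := by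
      rw [← Real.log_mul (by norm_num) hY'c.ne']
      exact Real.log_le_log hYc (by exact_mod_cast hcard)
    have hlog2 : Real.log (Y'.card : ℝ) ≤ Real.log (Y.card : ℝ) :=
      Real.log_le_log hY'c (by exact_mod_cast Finset.card_le_card hY'Y)
    have hρA : ρ ≤ sSup A := by
      apply le_csSup hbdd
      rw [hA]
      exact ⟨hρ0, hρ1.trans hlog2, pr_mono hY'Y hY'ne hP⟩
    have hsA : 0 ≤ sSup A := le_csSup hbdd h0A
    refine ⟨S', hS'S.trans hSY, hS'ne, ?_, ?_⟩
    · have h1 : (1 - δ) * (Real.log (Y.card : ℝ) - Real.log 2 - sSup A) ≤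
          (1 - δ) * (Real.log (Y'.card : ℝ) - ρ) :=
        mul_le_mul_of_nonneg_left (by linarith) (by linarith)
      have h2 : 0 ≤ δ * sSup A := by positivity
      have h3 : 0 ≤ δ * Real.log 2 := by positivity
      nlinarith
    · intro X hX
      obtain ⟨g, hg1, hg2, hgb⟩ := hdil S' hS'ne (fun y hy => hY'pos y (hSY (hS'S hy))) X hX
      refine ⟨g, hg1, hg2, le_trans ?_ hgb⟩
      have hX0 : 0 ≤ Real.log (X.card : ℝ) := Real.log_natCast_nonneg _
      have hS'Y : Real.log (S'.card : ℝ) ≤ Real.log (Y.card : ℝ) := by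
        apply Real.log_le_log
        · exact_mod_cast Finset.card_pos.2 hS'ne
        · exact_mod_cast Finset.card_le_card ((hS'S.trans hSY).trans hY'Y)
      have h1 : δ * lam / 2 * (rr S' : ℝ) ≤ δ / 2 * (Real.log 2 + Real.log (Y'.card : ℝ)) := by
        have h2 : δ * lam / 2 * (rr S' : ℝ) ≤
            δ * lam / 2 * ((Real.log 2 + Real.log (Y'.card : ℝ)) / lam) :=
          mul_le_mul_of_nonneg_left hS'r (by positivity)
        have h3 : δ * lam / 2 * ((Real.log 2 + Real.log (Y'.card : ℝ)) / lam) =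
            δ / 2 * (Real.log 2 + Real.log (Y'.card : ℝ)) := by field_simp
        linarith
      nlinarith

/-- sets of small rank: `ρ = 0` -/
theorem good_rank (δ D : ℝ) (hδ : 0 < δ) (hδ1 : δ ≤ 1 / 2) (hD : 0 < D) :
    ∃ q : ℕ, ∃ C : ℝ, 0 ≤ C ∧ 1 ≤ q ∧ ∀ D2 : ℝ, 0 ≤ D2 → ∀ Y : Finset ℕ, Y.Nonempty →
      (∀ y ∈ Y, 0 < y) → (rr Y : ℝ) ≤ D * (D2 + Real.log (Y.card : ℝ)) →
      Good q δ (C + D2) Y 0 := by
  obtain ⟨q, C, hC, hq, hdil⟩ := dilates_pos (δ / 2) (δ / (2 * D)) (by positivity) (by linarith)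
    (by positivity)
  have hl2 : 0 ≤ Real.log 2 := Real.log_nonneg (by norm_num)
  refine ⟨q, C + Real.log 2, by positivity, hq, ?_⟩
  intro D2 hD2 Y hY hpos hrank Y' hY'Y hcard
  have hL : 0 ≤ Real.log (Y.card : ℝ) := Real.log_natCast_nonneg _
  have hY'ne : Y'.Nonempty := by
    rw [← Finset.card_pos]
    have := Finset.card_pos.2 hY
    omega
  have hY'c : (0 : ℝ) < (Y'.card : ℝ) := by exact_mod_cast Finset.card_pos.2 hY'ne
  have hYc : (0 : ℝ) < (Y.card : ℝ) := by exact_mod_cast Finset.card_pos.2 hY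
  have hlog1 : Real.log (Y.card : ℝ) ≤ Real.log 2 + Real.log (Y'.card : ℝ) := by
    rw [← Real.log_mul (by norm_num) hY'c.ne']
    exact Real.log_le_log hYc (by exact_mod_cast hcard)
  have hlog2 : Real.log (Y'.card : ℝ) ≤ Real.log (Y.card : ℝ) :=
    Real.log_le_log hY'c (by exact_mod_cast Finset.card_le_card hY'Y)
  refine ⟨Y', subset_rfl, hY'ne, ?_, ?_⟩
  · have : 0 ≤ δ * Real.log (Y.card : ℝ) := by positivity
    linarith
  · intro X hX
    obtain ⟨g, hg1, hg2, hgb⟩ := hdil Y' hY'ne (fun y hy => hpos y (hY'Y hy)) X hX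
    refine ⟨g, hg1, hg2, le_trans ?_ hgb⟩
    have hX0 : 0 ≤ Real.log (X.card : ℝ) := Real.log_natCast_nonneg _
    have hrr : (rr Y' : ℝ) ≤ (rr Y : ℝ) := by exact_mod_cast rr_mono hY'Y
    have h1 : δ / (2 * D) * (rr Y' : ℝ) ≤ δ / 2 * (D2 + Real.log (Y.card : ℝ)) := by
      have h2 : δ / (2 * D) * (rr Y' : ℝ) ≤ δ / (2 * D) * (D * (D2 + Real.log (Y.card : ℝ))) :=
        mul_le_mul_of_nonneg_left (hrr.trans hrank) (by positivity)
      have h3 : δ / (2 * D) * (D * (D2 + Real.log (Y.card : ℝ))) =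
          δ / 2 * (D2 + Real.log (Y.card : ℝ)) := by field_simp
      linarith
    nlinarith

end Pool.Agent.Helper99.MR
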