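import Pool.Agent.Helper23.SM.Sharp
import Pool.Agent.Helper99.MR.UnionM

set_option autoImplicit false

/-!
# Project MR (MP_120218), random dilates: the union bound over all large subsets, sharp form
-/

namespace Pool.Agent.Helper99.MR

open Finset Pool.Agent.Helper23.SM

/-- **random dilates from a set of pairwise coprime numbers, every large subset** -/
theorem unionMS (j : ℕ) (ε δ : ℝ) (hε : 0 < ε) (hδ : 0 < δ) :
    ∃ C c : ℝ, 0 < C ∧ 0 < c ∧ ∀ A : Finset ℤ, A.Nonempty → (0 : ℤ) ∉ A → ∀ G : Finset ℕ,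
      (∀ g ∈ G, 1 ≤ g ∧ (g : ℝ) ≤ (A.card : ℝ) ^ c) →
      (∀ g ∈ G, ∀ g' ∈ G, g ≠ g' → Nat.Coprime g g') →
      ∀ n : ℕ, (A.card : ℝ) ^ δ ≤ n →
        (((univ : Finset ({a // a ∈ A} → {g // g ∈ G})).filter (fun f =>
          ¬ ∀ B : Finset {a // a ∈ A}, n ≤ B.card →
            c * (B.card : ℝ) ^ ((j : ℝ) + 2 - ε) ≤
              ((ksm (j + 1) (B.image
                (fun a : {a // a ∈ A} => ((f a : ℕ) : ℤ) * (a : ℤ)))).card : ℝ) *
              ((kpm (j + 1) (B.image
                (fun a : {a // a ∈ A} => ((f a : ℕ) : ℤ) * (a : ℤ)))).card : ℝ))).card : ℝ) ≤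
          (C * A.card / (G.card * n)) ^ n * (G.card : ℝ) ^ A.card := by
  classical
  obtain ⟨C0, c0, hC0, hc0, hmain⟩ := fewM j ε hε
  have hC0' : (1 : ℝ) ≤ (C0 : ℝ) := by exact_mod_cast hC0
  obtain ⟨c, hc, hcc0, hcδ⟩ : ∃ c : ℝ, 0 < c ∧ c ≤ c0 ∧ c ≤ δ * c0 :=
    ⟨min c0 (δ * c0), by positivity, min_le_left _ _, min_le_right _ _⟩
  refine ⟨3 * (C0 : ℝ), c, by positivity, hc, ?_⟩
  intro A hA hA0 G hG hGc n hn
  obtain ⟨N, hN⟩ : ∃ N : ℝ, N = (A.card : ℝ) := ⟨_, rfl⟩
  have hN1' : 1 ≤ N := by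
    rw [hN]
    exact_mod_cast Finset.card_pos.2 hA
  have hNp : 0 < N := by linarith
  rw [← hN] at hG hn
  have hnp : 0 < n := by
    have : (0 : ℝ) < (n : ℝ) := lt_of_lt_of_le (Real.rpow_pos_of_pos hNp δ) hn
    exact_mod_cast this
  by_cases hGe : G = ∅
  · have hemp : IsEmpty ({a // a ∈ A} → {g // g ∈ G}) := by
      obtain ⟨a, ha⟩ := hA
      refine ⟨fun f => ?_⟩
      have h1 : G.Nonempty := ⟨_, (f ⟨a, ha⟩).2⟩
      exact h1.ne_empty hGe
    rw [Finset.eq_empty_of_isEmpty ((univ : Finset ({a // a ∈ A} → {g // g ∈ G})).filter _),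
      Finset.card_empty, Nat.cast_zero]
    positivity
  have hGpos : 0 < G.card := card_pos.2 (nonempty_iff_ne_empty.2 hGe)
  have hq0 : (0 : ℝ) < (G.card : ℝ) := by exact_mod_cast hGpos
  have hn0 : (0 : ℝ) < (n : ℝ) := by exact_mod_cast hnp
  obtain ⟨bad, hbad⟩ : ∃ bad : Finset {a // a ∈ A} → Finset ({a // a ∈ A} → {g // g ∈ G}),
      ∀ B, bad B = (univ : Finset ({a // a ∈ A} → {g // g ∈ G})).filter (fun f =>
        ¬ (c * (B.card : ℝ) ^ ((j : ℝ) + 2 - ε) ≤
              ((ksm (j + 1) (B.image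
                (fun a : {a // a ∈ A} => ((f a : ℕ) : ℤ) * (a : ℤ)))).card : ℝ) *
              ((kpm (j + 1) (B.image
                (fun a : {a // a ∈ A} => ((f a : ℕ) : ℤ) * (a : ℤ)))).card : ℝ))) :=
    ⟨_, fun _ => rfl⟩
  have hcardG : Fintype.card {g // g ∈ G} = G.card := Fintype.card_coe G
  have hone : ∀ B : Finset {a // a ∈ A}, n ≤ B.card →
      (bad B).card ≤ C0 ^ B.card * G.card ^ (Fintype.card {a // a ∈ A} - B.card) := by
    intro B hB
    have hB0 : 0 < B.card := lt_of_lt_of_le hnp hB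
    have hBn : N ^ δ ≤ (B.card : ℝ) := hn.trans (by exact_mod_cast hB)
    have : Nonempty {b // b ∈ B} := by
      obtain ⟨b, hb⟩ := Finset.card_pos.1 hB0
      exact ⟨⟨b, hb⟩⟩
    have h3 := hmain {b // b ∈ B} (fun b => ((b : {a // a ∈ A}) : ℤ))
      (fun b b' hbb => Subtype.ext (Subtype.ext hbb))
      (fun b hb => hA0 (by
        have h := (b : {a // a ∈ A}).2
        have hb' : ((b : {a // a ∈ A}) : ℤ) = 0 := hb
        rwa [hb'] at h)) G
      (fun g hg => ⟨(hG g hg).1, by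
        rw [Fintype.card_coe]
        refine (hG g hg).2.trans ?_
        calc N ^ c ≤ N ^ (δ * c0) := Real.rpow_le_rpow_of_exponent_le hN1' hcδ
          _ = (N ^ δ) ^ c0 := Real.rpow_mul hNp.le _ _
          _ ≤ (B.card : ℝ) ^ c0 := Real.rpow_le_rpow (by positivity) hBn hc0.le⟩) hGc
    rw [Fintype.card_coe] at h3
    have h6 := (card_restrictM B _ (bad B) ?_).trans (Nat.mul_le_mul_right _ h3)
    · rwa [hcardG] at h6
    intro f hf
    rw [hbad, mem_filter] at hf
    refine mem_filter.2 ⟨mem_univ _, ?_⟩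
    intro h4
    apply hf.2
    have h5 : mset (fun b : {b // b ∈ B} => ((b : {a // a ∈ A}) : ℤ))
        (fun a : {a // a ∈ B} => f a) =
        B.image (fun a : {a // a ∈ A} => ((f a : ℕ) : ℤ) * (a : ℤ)) := by
      ext z
      simp only [mset, mem_image, mem_univ, true_and]
      constructor
      · rintro ⟨⟨a, ha⟩, rfl⟩
        exact ⟨a, ha, rfl⟩
      · rintro ⟨a, ha, rfl⟩
        exact ⟨⟨a, ha⟩, rfl⟩
    rw [h5] at h4
    exact (mul_le_mul_of_nonneg_right hcc0 (by positivity)).trans h4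
  have hsub : (univ : Finset ({a // a ∈ A} → {g // g ∈ G})).filter (fun f =>
        ¬ ∀ B : Finset {a // a ∈ A}, n ≤ B.card →
            c * (B.card : ℝ) ^ ((j : ℝ) + 2 - ε) ≤
              ((ksm (j + 1) (B.image
                (fun a : {a // a ∈ A} => ((f a : ℕ) : ℤ) * (a : ℤ)))).card : ℝ) *
              ((kpm (j + 1) (B.image
                (fun a : {a // a ∈ A} => ((f a : ℕ) : ℤ) * (a : ℤ)))).card : ℝ)) ⊆
      ((univ : Finset (Finset {a // a ∈ A})).filter (fun B => n ≤ B.card)).biUnion bad := by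
    intro f hf
    have h1 := (mem_filter.1 hf).2
    rw [not_forall] at h1
    obtain ⟨B, hB⟩ := h1
    rw [Classical.not_imp] at hB
    refine mem_biUnion.2 ⟨B, mem_filter.2 ⟨mem_univ _, hB.1⟩, ?_⟩
    rw [hbad]
    exact mem_filter.2 ⟨mem_univ _, hB.2⟩
  have hcardA : Fintype.card {a // a ∈ A} = A.card := Fintype.card_coe A
  have hterm : ∀ B ∈ (univ : Finset (Finset {a // a ∈ A})).filter (fun B => n ≤ B.card),
      ((bad B).card : ℝ) ≤ ((C0 : ℝ) / (G.card : ℝ)) ^ B.card * (G.card : ℝ) ^ A.card := by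
    intro B hB
    have h1 : ((bad B).card : ℝ) ≤
        (C0 : ℝ) ^ B.card * (G.card : ℝ) ^ (Fintype.card {a // a ∈ A} - B.card) := by
      exact_mod_cast hone B (mem_filter.1 hB).2
    refine h1.trans (le_of_eq ?_)
    have hBA : B.card ≤ A.card := by
      have := card_le_univ B
      rwa [Fintype.card_coe] at this
    rw [hcardA]
    have h6 : (G.card : ℝ) ^ A.card = (G.card : ℝ) ^ B.card * (G.card : ℝ) ^ (A.card - B.card) := by
      rw [← pow_add]
      congr 1
      omega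
    rw [h6, div_pow]
    field_simp
  refine le_trans (by exact_mod_cast card_le_card hsub :
    _ ≤ ((((univ : Finset (Finset {a // a ∈ A})).filter
          (fun B => n ≤ B.card)).biUnion bad).card : ℝ)) ?_
  have hrw : 3 * (C0 : ℝ) * (A.card : ℝ) / (G.card * n) =
      3 * ((C0 : ℝ) / (G.card : ℝ) * (A.card : ℝ) / n) := by
    field_simp
  rw [hrw]
  have hAc : 0 < A.card := card_pos.2 hA
  by_cases hx : (C0 : ℝ) / (G.card : ℝ) * (A.card : ℝ) ≤ (n : ℝ)
  · calc ((((univ : Finset (Finset {a // a ∈ A})).filter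
            (fun B => n ≤ B.card)).biUnion bad).card : ℝ)
        ≤ ∑ B ∈ (univ : Finset (Finset {a // a ∈ A})).filter (fun B => n ≤ B.card),
          ((bad B).card : ℝ) := by
          exact_mod_cast card_biUnion_le
      _ ≤ ∑ B ∈ (univ : Finset (Finset {a // a ∈ A})).filter (fun B => n ≤ B.card),
          ((C0 : ℝ) / (G.card : ℝ)) ^ B.card * (G.card : ℝ) ^ A.card := sum_le_sum hterm
      _ = (∑ B ∈ (univ : Finset (Finset {a // a ∈ A})).filter (fun B => n ≤ B.card),
          ((C0 : ℝ) / (G.card : ℝ)) ^ B.card) * (G.card : ℝ) ^ A.card := by rw [sum_mul]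
      _ ≤ _ := by
          apply mul_le_mul_of_nonneg_right _ (by positivity)
          have h2 := sum_sharp {a // a ∈ A} ((C0 : ℝ) / (G.card : ℝ)) (by positivity) n hnp
            (by rw [hcardA]; exact hAc) (by rw [hcardA]; exact hx)
          rw [hcardA] at h2
          exact h2
  · push Not at hx
    have h1 : ((((univ : Finset (Finset {a // a ∈ A})).filter
            (fun B => n ≤ B.card)).biUnion bad).card : ℝ) ≤ (G.card : ℝ) ^ A.card := by
      have h2 := card_le_univ (((univ : Finset (Finset {a // a ∈ A})).filter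
            (fun B => n ≤ B.card)).biUnion bad)
      rw [Fintype.card_fun, hcardG, hcardA] at h2
      exact_mod_cast h2
    have h3 : (1 : ℝ) ≤ 3 * ((C0 : ℝ) / (G.card : ℝ) * (A.card : ℝ) / n) := by
      have h4 : (1 : ℝ) ≤ (C0 : ℝ) / (G.card : ℝ) * (A.card : ℝ) / n := by
        rw [one_le_div hn0]
        exact hx.le
      linarith
    calc ((((univ : Finset (Finset {a // a ∈ A})).filter
            (fun B => n ≤ B.card)).biUnion bad).card : ℝ) ≤ 1 * (G.card : ℝ) ^ A.card := by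
          rw [one_mul]; exact h1
      _ ≤ _ := mul_le_mul_of_nonneg_right (one_le_pow₀ h3) (by positivity)

end Pool.Agent.Helper99.MR
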